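import Pool.Agent.H95.LB.Le1
import Pool.Agent.H95.KT.Key
import Pool.Agent.H7.IG.KeyCcc
import Pool.Agent.H7.IG.SideS1
import Pool.Agent.H7.IG.Gn1
import Pool.Agent.H7.IG.Gn2
import Pool.Agent.H7.IG.Prj2
import Pool.Agent.H7.IG.LEk

/-!
# IG, Part 4c: the big lifting lemma

`M` is a ctm with a supercompact `κ`, `G` a good generic filter for the side condition poset `P`, `Q` a ccc finite support
iteration in `M[G]`, `H` generic for `Q`. If `SP` holds in `M[G][H]` then `BLP` holds there.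
-/

set_option autoImplicit false
set_option linter.unusedVariables false
set_option linter.unusedSectionVars false
set_option linter.unusedSimpArgs false
set_option linter.unusedTactic false
set_option linter.unreachableTactic false

namespace Pool.Agent.H95.LB

open Pool.Agent.H17.Omega Pool.Agent.H17.Omega.CTM Pool.Agent.H52.GX Pool.Agent.H52.GC Pool.Agent.H7.IG

variable {M : Set ZFSet.{0}} {κ : Ordinal.{0}}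

/-- the quotient of the side condition poset, the small iteration and the rest: approximation -/
theorem ap1 (hM : CTM M) (h : Sc M κ) {P G : ZFSet.{0}} (hP : IsPK M κ P) (hG : Gen M P G) {δ : Ordinal.{0}}
    {γ : Ordinal.{0}} (htr : TrO M κ γ) (hγG : ∃ s ∈ G, γ.toZFSet ∈ s) {Q1 H1 : ZFSet.{0}}
    (hQ1 : Q1 ∈ Xt M (Po G γ)) (hc1 : Ccc (Xt M (Po G γ)) Q1) (hH1 : Gen (Xt M G) Q1 H1)
    (hδ : IsOm1 (Xt (Xt M (Po G γ)) H1) δ) (hSP : SP (Xt (Xt M (Po G γ)) H1) δ)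
    {Q Q₀ B₀ H : ZFSet.{0}} (hQ : Q ∈ Xt M G) (hQ₀ : Q₀ ∈ Xt M G) (hB₀ : B₀ ∈ Xt M G) (hQQ : Q₀ ⊆ Q)
    (hprj : Prj Q Q₀ B₀) (hc : Ccc (Xt M G) Q) (hH : Gen (Xt M G) Q H)
    (heq : Xt (Xt M G) H1 = Xt (Xt M G) (Gb H B₀)) :
    AP (Xt (Xt M (Po G γ)) H1) (Xt (Xt M G) H) := by
  have hPM := hP.1
  have hNM : CTM (Xt M G) := hG.ctm hM hPM
  have hPoM : Po P γ ∈ M := sep_Po (B := G) hM hPM htr.1
  have hgen : Gen M (Po P γ) (Po G γ) := genPo hM hP hG htr hγG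
  have hW0 : CTM (Xt M (Po G γ)) := hgen.ctm hM hPoM
  have hMW0 : M ⊆ Xt M (Po G γ) := hgen.sub_xt hM hPoM
  have hGoW0 : Po G γ ∈ Xt M (Po G γ) := hgen.mem_xt hM hPoM
  have hWN : Xt M (Po G γ) ⊆ Xt M G :=
    xt_min hNM (hG.sub_xt hM hPM) (sep_Po (B := G) hNM (hG.mem_xt hM hPM) (hG.sub_xt hM hPM htr.1))
  obtain ⟨B, hB, hB'⟩ := exists_Lv hM htr.1
  have hPg : Pg P γ ∈ M := Pg_mem hM hPM htr.1
  have hGb : Gb (Pg G γ) B = Po G γ := side_Gb hM hP hG htr hγG hB'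
  obtain ⟨hgPg, hxPg⟩ := side_cone hM hP hG htr hγG
  have hsp := side_prj hM hP htr hB'
  -- the quotient over `W₀`
  have hquo := hsp.quo hM hPg hPoM hB hgPg
  have hxt := hsp.xt hM hPg hPoM hB hgPg
  rw [hGb] at hquo hxt
  rw [hxPg] at hxt
  have hS0 : Quo (Pg P γ) B (Po G γ) ∈ Xt M (Po G γ) := Quo_mem hW0 (hMW0 hPg) (hMW0 hB) hGoW0
  have hH1W : Gen (Xt M (Po G γ)) Q1 H1 := Gen.of_sub hWN hH1
  have hW : CTM (Xt (Xt M (Po G γ)) H1) := hH1W.ctm hW0 hQ1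
  have hW0W : Xt M (Po G γ) ⊆ Xt (Xt M (Po G γ)) H1 := hH1W.sub_xt hW0 hQ1
  have hH1' : Gen (Xt (Xt M (Po G γ)) (Pg G γ)) Q1 H1 := by
    rw [hxt]
    exact hH1
  obtain ⟨-, hg2, hx2⟩ := Gen.prod hW0 hS0 hQ1 hquo hH1'
  rw [hxt, heq] at hx2
  have hspr0 : SPR M (Xt M (Po G γ)) (Quo (Pg P γ) B (Po G γ)) :=
    side_spr1 hM h.mem (Inac.ucof hM (Pool.Agent.H95.SC.sc_inac hM h)) hP htr hB' hgen
  have hspr : SPR M (Xt (Xt M (Po G γ)) H1) (Quo (Pg P γ) B (Po G γ)) :=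
    SPR.ccc hM hW0 hMW0 hQ1 hc1 hH1W hS0 hspr0
  have hord : ∀ o : Ordinal.{0}, o.toZFSet ∈ Xt (Xt M (Po G γ)) H1 → o.toZFSet ∈ M :=
    fun o ho => (hgen.ord hM hPoM).1 ((hH1W.ord hW0 hQ1).1 ho)
  have hq1 := hprj.ccc hNM hQ hQ₀ hB₀ hQQ hc hH
  have hq2 := hprj.quo hNM hQ hQ₀ hB₀ hH
  have hq3 := hprj.xt hNM hQ hQ₀ hB₀ hH
  have hg0 := hprj.gen₀ hNM hQ hQ₀ hB₀ hH
  have hN1 : CTM (Xt (Xt M G) (Gb H B₀)) := hg0.ctm hNM hQ₀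
  have hN1s := hg0.sub_xt hNM hQ₀
  have hR : Quo Q B₀ (Gb H B₀) ∈ Xt (Xt M G) (Gb H B₀) := Quo_mem hN1 (hN1s hQ) (hN1s hB₀) (hg0.mem_xt hNM hQ₀)
  rw [← hx2] at hq1 hq2 hq3 hR
  rw [← hq3]
  exact Pool.Agent.H95.KT.key hM hW (fun x hx => hW0W (hMW0 hx)) hord hδ hSP (hW0W hS0)
    ⟨P, hPM, fun x hx => (mem_Pg.1 (mem_Quo.1 hx).1).1⟩ hspr hg2 hR hq1 hq2

/-- THE BIG LIFTING LEMMA. -/
theorem blp (hM : CTM M) (h : Sc M κ) {P G : ZFSet.{0}} (hP : IsPK M κ P) (hG : Gen M P G) (hGs : Good M κ G)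
    {δ : Ordinal.{0}} (hδ : IsOm1 M δ) {Λ : Ordinal.{0}} {𝓡 Q 𝓕 : ZFSet.{0}} (hΛ : Λ.toZFSet ∈ Xt M G)
    (h𝓡 : 𝓡 ∈ Xt M G) (hQ : Q ∈ Xt M G) (h𝓕 : 𝓕 ∈ Xt M G) (hfin : FinSub δ.toZFSet Λ.toZFSet 𝓕)
    (hit : IsIt δ.toZFSet Λ.toZFSet 𝓡 Q 𝓕) (hsn : SmallNm (Xt M G) δ.toZFSet Λ.toZFSet 𝓡)
    (hc : Ccc (Xt M G) Q) {H : ZFSet.{0}} (hH : Gen (Xt M G) Q H) (hSP : SP (Xt (Xt M G) H) δ) :
    BLP (Xt (Xt M G) H) δ κ := by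
  rintro _ ⟨τ, hτ, rfl⟩
  have hPM := hP.1
  have hN0 : CTM (Xt M G) := hG.ctm hM hPM
  have hMN0 : M ⊆ Xt M G := hG.sub_xt hM hPM
  have hN : CTM (Xt (Xt M G) H) := hH.ctm hN0 hQ
  have hN0N : Xt M G ⊆ Xt (Xt M G) H := hH.sub_xt hN0 hQ
  have hκN : κ.toZFSet ∈ Xt M G := hMN0 h.mem
  obtain ⟨ζ, hζM, hζl, hζω, hQζ, hzζ, T, hTM, hT, K, hKM, hK⟩ :=
    exists_Chk hN0 hQ (⟨ZFSet.pair κ.toZFSet τ, hN0.pair_mem hκN hτ⟩ : Xt M G)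
  have hzζ : (ZFSet.pair κ.toZFSet τ).rank < ζ := hzζ
  have hκT : κ.toZFSet ∈ T := (hT _).2 ⟨hκN, rk_pair1 hzζ⟩
  have hτT : τ ∈ T := (hT _).2 ⟨hτ, rk_pair2 hzζ⟩
  have hQT : Q ∈ T := (hT _).2 ⟨hQ, hQζ⟩
  have hTl : Lev (Xt M G) (El T) := by
    have h1 : El T = Lv (Xt M G) ζ := by
      ext x
      exact hT x
    rw [h1]
    exact Lev_Lv hN0 hζM hζl hζω
  obtain ⟨E, hEM, hE⟩ := exists_E hN0 hQ hTM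
  have hx0 : ZFSet.pair Q (ZFSet.pair T (ZFSet.pair K (ZFSet.pair E (ZFSet.pair τ (ZFSet.pair 𝓡
      (ZFSet.pair 𝓕 Λ.toZFSet)))))) ∈ Xt M G :=
    hN0.pair_mem hQ (hN0.pair_mem hTM (hN0.pair_mem hKM (hN0.pair_mem hEM (hN0.pair_mem hτ
      (hN0.pair_mem h𝓡 (hN0.pair_mem h𝓕 hΛ))))))
  obtain ⟨γ, A, B, e, htr, hγG, hle, hsml, y0, hy0, ey0⟩ := le1 hM h hP hG hGs hδ hx0
  have hA := hle.lev.tra
  have hB := hle.lev'.tra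
  obtain ⟨Q1, hQ1, y1, hy1, _, eQ1, ey1⟩ := hle.el.comp hA hB hy0 ey0
  obtain ⟨T1, hT1, y2, hy2, _, eT1, ey2⟩ := hle.el.comp hA hB hy1 ey1
  obtain ⟨K1, hK1, y3, hy3, _, eK1, ey3⟩ := hle.el.comp hA hB hy2 ey2
  obtain ⟨E1, hE1, y4, hy4, _, eE1, ey4⟩ := hle.el.comp hA hB hy3 ey3
  obtain ⟨τ1, hτ1, y5, hy5, _, eτ1, ey5⟩ := hle.el.comp hA hB hy4 ey4
  obtain ⟨𝓡1, h𝓡1, y6, hy6, _, e𝓡1, ey6⟩ := hle.el.comp hA hB hy5 ey5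
  obtain ⟨𝓕1, h𝓕1, l1, hl1, _, e𝓕1, el1⟩ := hle.el.comp hA hB hy6 ey6
  obtain ⟨Λ1, rfl⟩ := hle.ord hl1 el1
  have hItE : ItE (Xt M (Po G γ)) (Xt M G) A B δ γ κ Λ1 Λ 𝓡1 Q1 𝓕1 𝓡 Q 𝓕 e :=
    ⟨hle, hl1, h𝓡1, hQ1, h𝓕1, el1, e𝓡1, eQ1, e𝓕1, hfin, hit, hsn, hc⟩
  obtain ⟨B₀, hB₀, Q₀, hQ₀, hQQ, hprj, H1, hHH, hH1, heq, hH1N⟩ := hItE.main hQ hH
  have hQ1W : Q1 ∈ Xt M (Po G γ) := hle.lev.sub hQ1
  have hc1 : Ccc (Xt M (Po G γ)) Q1 := hItE.ccc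
  have hH1W : Gen (Xt M (Po G γ)) Q1 H1 := Gen.of_sub hle.sub hH1
  have hPoM : Po P γ ∈ M := sep_Po (B := G) hM hPM htr.1
  have hgen : Gen M (Po P γ) (Po G γ) := genPo hM hP hG htr hγG
  have hMW0 : M ⊆ Xt M (Po G γ) := hgen.sub_xt hM hPoM
  have hW : CTM (Xt (Xt M (Po G γ)) H1) := hH1W.ctm hle.hW hQ1W
  have hW0W : Xt M (Po G γ) ⊆ Xt (Xt M (Po G γ)) H1 := hH1W.sub_xt hle.hW hQ1W
  have hMW : M ⊆ Xt (Xt M (Po G γ)) H1 := fun x hx => hW0W (hMW0 hx)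
  have hWN : Xt (Xt M (Po G γ)) H1 ⊆ Xt (Xt M G) H := xt_min hN (hle.sub.trans hN0N) hH1N
  have hcov : Cov M (Xt (Xt M G) H) := Cov.trans hMN0 hN0N (covG hM h hP hG) (Ccc.cov hN0 hQ hc hH)
  have hcovW : Cov M (Xt (Xt M (Po G γ)) H1) := Cov.low hMW hWN hcov
  have hδW : IsOm1 (Xt (Xt M (Po G γ)) H1) δ := Cov.om1 hMW hcovW hδ
  have hδN : IsOm1 (Xt (Xt M G) H) δ := Cov.om1 (hMN0.trans hN0N) hcov hδ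
  obtain ⟨e2, hle2, hval, -⟩ := hle.lift hQ1 hT1 hK1 hE1 eQ1 eT1 eK1 eE1 hTl hQT hκT hK hE hH1W hH hH1N hHH hδW hδN
  have hord : ∀ o : Ordinal.{0}, o.toZFSet ∈ Xt (Xt M (Po G γ)) H1 → o.toZFSet ∈ M :=
    fun o ho => (hgen.ord hM hPoM).1 ((hH1W.ord hle.hW hQ1W).1 ho)
  have hSPW : SP (Xt (Xt M (Po G γ)) H1) δ :=
    SP.pull hW hN hle2.lev hle2.lev' hle2.el hδW hδN hle2.memδ hle2.fix' hSP
  have hτ1T : τ1 ∈ T1 := (hle.el.mem hA hB hτ1 hT1).2 (by rw [eτ1, eT1]; exact hτT)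
  refine ⟨_, _, _, γ, e2, hle2, ?_, Cov.mid hM hW hN hMW hWN hord hcov, ?_, vl H1 τ1, ⟨τ1, hτ1T, rfl⟩, ?_⟩
  · obtain ⟨a, ha, ha', hca⟩ := hsml
    obtain ⟨f, hf, hf1, hf2⟩ := hca
    have hc3 : Cvr (Xt (Xt M G) H) δ.toZFSet T1 :=
      ⟨f, hN0N hf, hf1, fun x hx => hf2 x ((ha' x).2 (hA _ hT1 _ hx))⟩
    exact cvr_vl hN (hN0N (hMN0 hδ.mem)) (hN0N (hle.sub (hle.lev.sub hT1))) hH1N hc3
  · exact ap1 hM h hP hG htr hγG hQ1W hc1 hH1 hδW hSPW hQ hQ₀ hB₀ hQQ hprj hc hH heq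
  · rw [hval τ1 hτ1T, eτ1]

end Pool.Agent.H95.LB
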