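import Pool.Agent.H95.LB.Tor
import Pool.Agent.H91.LK.B2

/-!
# LBA, block P: the arithmetic of a bad prime

`p` prime, two conjugates of `α` have equal `p`-th powers, fewer than `p` conjugates have the
`p`-th power `α ^ p`.
* `bad_root` (B1): there is `z ≠ 1`, `z ^ p = 1`, such that `z * α` is fixed by the stabiliser of
  `α ^ p`;
* `bad_fix` (B0): an automorphism fixing a conjugate fixes the `p`-th roots of unity;
* `bad_pow` (B2): `x ^ (p * p) = y ^ (p * p)` implies `x ^ p = y ^ p` on the conjugates;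
* `log_res_bad` (B3): `p ^ (p d)` divides `∏_{x, y} (x ^ p - y ^ (p * p))`.
-/

set_option autoImplicit false

namespace H95.LB

open H25.Arith H25.Arith.Disc H91.LK

section

variable {K : Type} [Field K] [NumberField K]

/-- (B1) -/
theorem bad_root {p : ℕ} (hp : p.Prime) {α : K} (hα : α ≠ 0)
    (hno : ∀ s : Finset K, (∀ x ∈ s, x ∈ orb α ∧ x ^ p = α ^ p) → s.card < p)
    (hbad : ∃ x ∈ orb α, ∃ y ∈ orb α, x ≠ y ∧ x ^ p = y ^ p) :
    ∃ z : K, z ^ p = 1 ∧ z ≠ 1 ∧ (∃ τ : K ≃ₐ[ℚ] K, τ (α ^ p) = α ^ p ∧ τ z ≠ z) ∧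
      ∀ s : K ≃ₐ[ℚ] K, s (α ^ p) = α ^ p → s (z * α) = z * α := by
  obtain ⟨x, hx, y, hy, hxy, he⟩ := hbad
  obtain ⟨g, rfl⟩ := mem_orb.1 hx
  obtain ⟨g', rfl⟩ := mem_orb.1 hy
  have hτ : (g.symm (g' α)) ^ p = α ^ p := by
    rw [← map_pow, ← he, ← map_pow g α, AlgEquiv.symm_apply_apply]
  have hne : g.symm (g' α) ≠ α := by
    intro h
    rw [AlgEquiv.symm_apply_eq] at h
    exact hxy h.symm
  obtain ⟨ε, h1, h2⟩ := tor_fix (m := 1) hp one_pos hα (g'.trans g.symm)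
    (ω := g.symm (g' α) / α)
    (by rw [div_pow, hτ, div_self (pow_ne_zero _ hα)])
    (by
      intro h
      rw [div_eq_one_iff_eq hα] at h
      exact hne h)
    (by
      rw [div_mul_cancel₀ _ hα]
      rfl)
    (fun ρ η hη h1 h2 => tor_N hp hα hno ρ hη h1 h2)
  rw [one_mul] at h1 h2
  have hε : ε / α * α = ε := div_mul_cancel₀ _ hα
  have hfix : ∀ s : K ≃ₐ[ℚ] K, s (α ^ p) = α ^ p → s (ε / α * α) = ε / α * α := by
    intro s hs
    rw [hε]
    exact h2 s hs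
  have hs0 : (g'.trans g.symm) (α ^ p) = α ^ p := by
    rw [map_pow]
    exact hτ
  have hmove : (g'.trans g.symm) (ε / α) ≠ ε / α := by
    intro h
    have h3 := hfix (g'.trans g.symm) hs0
    rw [map_mul, h] at h3
    have h4 : ε / α ≠ 0 := by
      intro h5
      rw [h5, zero_mul] at hε
      rw [← hε, zero_pow hp.ne_zero] at h1
      exact pow_ne_zero _ hα h1.symm
    exact hne (mul_left_cancel₀ h4 h3)
  refine ⟨ε / α, ?_, ?_, ⟨g'.trans g.symm, hs0, hmove⟩, hfix⟩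
  · rw [div_pow, h1, div_self (pow_ne_zero _ hα)]
  · intro h
    rw [h, map_one] at hmove
    exact hmove rfl

omit [NumberField K] in
/-- the `p`-th roots of unity are the powers of one of them -/
theorem root_pow {p : ℕ} (hp : p.Prime) {z w : K} (hz : z ^ p = 1) (hz1 : z ≠ 1)
    (hw : w ^ p = 1) : ∃ k : ℕ, w = z ^ k := by
  have : Fact p.Prime := ⟨hp⟩
  have hprim : IsPrimitiveRoot z p := by
    rw [← orderOf_eq_prime hz hz1]
    exact IsPrimitiveRoot.orderOf z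
  obtain ⟨y, -, hy⟩ := hprim.eq_pow_of_pow_eq_one hw
  exact ⟨y, hy.symm⟩

/-- (B0) -/
theorem bad_fix {p : ℕ} (hp : p.Prime) {α : K} (hα : α ≠ 0)
    (hno : ∀ s : Finset K, (∀ x ∈ s, x ∈ orb α ∧ x ^ p = α ^ p) → s.card < p)
    (hbad : ∃ x ∈ orb α, ∃ y ∈ orb α, x ≠ y ∧ x ^ p = y ^ p)
    {x : K} (hx : x ∈ orb α) (s : K ≃ₐ[ℚ] K) (hs : s x = x) {w : K} (hw : w ^ p = 1) :
    s w = w := by
  obtain ⟨z, hz, hz1, -, hfix⟩ := bad_root hp hα hno hbad
  have key : ∀ t : K ≃ₐ[ℚ] K, t α = α → ∀ v : K, v ^ p = 1 → t v = v := by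
    intro t ht v hv
    have h1 := hfix t (by rw [map_pow, ht])
    rw [map_mul, ht] at h1
    have h2 : t z = z := mul_right_cancel₀ hα h1
    obtain ⟨k, rfl⟩ := root_pow hp hz hz1 hv
    rw [map_pow, h2]
  obtain ⟨g, rfl⟩ := mem_orb.1 hx
  have h3 := key ((g.trans s).trans g.symm) (by
    show g.symm (s (g α)) = α
    rw [hs, AlgEquiv.symm_apply_apply]) (g.symm w) (by rw [← map_pow, hw, map_one])
  have h4 : g.symm (s (g (g.symm w))) = g.symm w := h3
  rw [AlgEquiv.apply_symm_apply] at h4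
  exact g.symm.injective h4

/-- (B2) -/
theorem bad_pow {p : ℕ} (hp : p.Prime) {α : K} (hα : α ≠ 0)
    (hno : ∀ s : Finset K, (∀ x ∈ s, x ∈ orb α ∧ x ^ p = α ^ p) → s.card < p)
    (hbad : ∃ x ∈ orb α, ∃ y ∈ orb α, x ≠ y ∧ x ^ p = y ^ p)
    {x y : K} (hx : x ∈ orb α) (hy : y ∈ orb α) (h : x ^ (p * p) = y ^ (p * p)) :
    x ^ p = y ^ p := by
  obtain ⟨z, hz, hz1, ⟨τ, hτ, hτz⟩, hfix⟩ := bad_root hp hα hno hbad
  have hz0 : z ≠ 0 := by
    rintro rfl
    rw [zero_pow hp.ne_zero] at hz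
    exact zero_ne_one hz
  have hε0 : z * α ≠ 0 := mul_ne_zero hz0 hα
  have hεp : (z * α) ^ p = α ^ p := by rw [mul_pow, hz, one_mul]
  have hinv : ∀ (g : K ≃ₐ[ℚ] K) (y : K), g y = y → g⁻¹ y = y := by
    intro g y h
    have h1 : g⁻¹ (g y) = y := by
      rw [← AlgEquiv.mul_apply, inv_mul_cancel, AlgEquiv.one_apply]
    rwa [h] at h1
  have key : ∀ ρ : K ≃ₐ[ℚ] K, (ρ α) ^ (p * p) = α ^ (p * p) → (ρ α) ^ p = α ^ p := by
    intro ρ hρ
    set ε : K := z * α with hε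
    set ξ : K := ρ ε / ε with hξ
    have hξε : ρ ε = ξ * ε := by rw [hξ, div_mul_cancel₀ _ hε0]
    have hρp : (ρ α) ^ p = (ρ ε) ^ p := by rw [← map_pow, ← map_pow, hεp]
    have hξp : ξ ^ (p * p) = 1 := by
      have h1 : (ρ ε) ^ (p * p) = ε ^ (p * p) := by
        rw [pow_mul, ← hρp, ← pow_mul, hρ, pow_mul ε, hεp, ← pow_mul]
      rw [hξ, div_pow, h1, div_self (pow_ne_zero _ hε0)]
    by_cases hw1 : ξ ^ p = 1
    · rw [hρp, hξε, mul_pow, hw1, one_mul, hεp]
    · exfalso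
      have hppos : 0 < p * p := Nat.mul_pos hp.pos hp.pos
      set r : K ≃ₐ[ℚ] K := ρ * τ * ρ⁻¹ * τ⁻¹ with hr
      have happ : ∀ y, r y = ρ (τ (ρ⁻¹ (τ⁻¹ y))) := fun y => rfl
      have hroot : ∀ (n : ℕ) (χ : K), 0 < n → χ ^ n = 1 → r χ = χ := by
        intro n χ hn hχ
        have h1 : (ρ⁻¹ (τ⁻¹ χ)) ^ n = 1 := by
          rw [← map_pow, ← map_pow, hχ, map_one, map_one]
        rw [happ, tor_comm ρ τ hn h1]
        have h2 : ρ (ρ⁻¹ (τ⁻¹ χ)) = τ⁻¹ χ := by
          rw [← AlgEquiv.mul_apply, mul_inv_cancel, AlgEquiv.one_apply]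
        rw [h2, ← AlgEquiv.mul_apply, mul_inv_cancel, AlgEquiv.one_apply]
      have hτε : τ ε = ε := hfix τ hτ
      -- `r ε = (ξ / τ ξ) ε`
      have hξ0 : ξ ≠ 0 := by
        intro h0
        rw [h0, zero_pow hppos.ne'] at hξp
        exact zero_ne_one hξp
      have h5 : ρ⁻¹ ε = (ρ⁻¹ ξ)⁻¹ * ε := by
        have h6 : ρ⁻¹ (ρ ε) = ε := by
          rw [← AlgEquiv.mul_apply, inv_mul_cancel, AlgEquiv.one_apply]
        rw [hξε, map_mul] at h6
        have h7 : ρ⁻¹ ξ ≠ 0 := (map_ne_zero _).2 hξ0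
        rw [← h6, ← mul_assoc, inv_mul_cancel₀ h7, one_mul, h6]
      have h8 : ρ (τ (ρ⁻¹ ξ)) = τ ξ := by
        have h9 : (ρ⁻¹ ξ) ^ (p * p) = 1 := by rw [← map_pow, hξp, map_one]
        rw [tor_comm ρ τ hppos h9, ← AlgEquiv.mul_apply ρ, mul_inv_cancel, AlgEquiv.one_apply]
      have hrε : r ε = ξ / τ ξ * ε := by
        rw [happ, hinv τ _ hτε, h5, map_mul, map_inv₀, hτε, map_mul, map_inv₀, h8, hξε]
        field_simp
      set χ : K := ξ / τ ξ with hχ
      have hχ1 : χ ^ (p * p) = 1 := by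
        rw [hχ, div_pow, ← map_pow, hξp, map_one, div_one]
      have hrχ : r χ = χ := hroot _ χ hppos hχ1
      obtain ⟨h10, -⟩ := tor_iter r hrε hrχ p
      have h11 : (r ^ p) (α ^ p) = α ^ p := by
        rw [← hεp, map_pow, h10, mul_pow, ← pow_mul, hχ1, one_mul]
      have h12 : χ ^ p = 1 := by
        have h13 := hfix (r ^ p) h11
        rw [h10] at h13
        exact (mul_eq_right₀ hε0).1 h13
      have h14 : τ (ξ ^ p) = ξ ^ p := by
        rw [hχ, div_pow, ← map_pow] at h12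
        have h15 : τ (ξ ^ p) ≠ 0 := (map_ne_zero _).2 (pow_ne_zero _ hξ0)
        rw [div_eq_one_iff_eq h15] at h12
        exact h12.symm
      obtain ⟨k, hk⟩ := root_pow hp (z := ξ ^ p) (w := z) (by rw [← pow_mul, hξp]) hw1 hz
      apply hτz
      rw [hk, map_pow, h14]
  obtain ⟨g, rfl⟩ := mem_orb.1 hx
  obtain ⟨g', rfl⟩ := mem_orb.1 hy
  have h1 : (g'.symm (g α)) ^ p = α ^ p := by
    refine key (g.trans g'.symm) ?_
    show (g'.symm (g α)) ^ (p * p) = _
    rw [← map_pow, h, ← map_pow g', AlgEquiv.symm_apply_apply]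
  have h2 := congrArg g' h1
  rwa [map_pow, map_pow, AlgEquiv.apply_symm_apply] at h2

end

section

variable {K : Type} [Field K] [NumberField K] [IsGalois ℚ K]

/-- the minimal polynomial at the `p`-th power -/
theorem prod_orb_pow (γ : K) (hγ : IsIntegral ℤ γ) (p : ℕ) (hp : p.Prime) :
    ∃ c : K, IsIntegral ℤ c ∧ ∏ b ∈ orb γ, (γ ^ p - b) = (p : K) * c := by
  obtain ⟨h₁, hh⟩ := exists_expand (minpoly ℤ γ) p hp
  have hprod : ∀ t : K, Polynomial.aeval t (minpoly ℤ γ) = ∏ y ∈ orb γ, (t - y) := by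
    intro t
    have h2 := links_prod γ
    rw [minpoly.isIntegrallyClosed_eq_field_fractions' ℚ hγ] at h2
    have h3 := congrArg (Polynomial.eval t) h2
    rw [Polynomial.map_map, Polynomial.eval_map, Polynomial.eval_prod] at h3
    rw [Polynomial.aeval_def]
    rw [show algebraMap ℤ K = (algebraMap ℚ K).comp (algebraMap ℤ ℚ) from RingHom.ext_int _ _, h3]
    refine Finset.prod_congr rfl fun y _ => ?_
    simp
  refine ⟨Polynomial.aeval γ h₁, ?_, ?_⟩
  · rw [Polynomial.aeval_eq_sum_range]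
    exact IsIntegral.sum _ fun i _ => (hγ.pow i).smul _
  · rw [← hprod, ← Polynomial.expand_aeval, hh, map_add, map_pow, minpoly.aeval,
      zero_pow hp.ne_zero, zero_add, map_mul, Polynomial.aeval_C]
    simp

/-- one factor `p ^ p` for every conjugate -/
theorem prod_bad (α : K) (hα : IsIntegral ℤ α) {p : ℕ} (hp : p.Prime)
    (hz : ∃ z : K, z ^ p = 1 ∧ z ≠ 1)
    (hfix : ∀ x ∈ orb α, ∀ s : K ≃ₐ[ℚ] K, s x = x → ∀ w : K, w ^ p = 1 → s w = w)
    (y : K) (hy : y ∈ orb α) :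
    ∃ c : K, IsIntegral ℤ c ∧ ∏ x ∈ orb α, (y ^ (p * p) - x ^ p) = (p : K) ^ p * c := by
  classical
  obtain ⟨z, hz, hz1⟩ := hz
  have : Fact p.Prime := ⟨hp⟩
  have hprim : IsPrimitiveRoot z p := by
    rw [← orderOf_eq_prime hz hz1]
    exact IsPrimitiveRoot.orderOf z
  set μ : Finset K := Polynomial.nthRootsFinset p (1 : K) with hμ
  have hmem : ∀ w : K, w ∈ μ ↔ w ^ p = 1 := fun w => by
    rw [hμ, Polynomial.mem_nthRootsFinset hp.pos]
  have hcard : μ.card = p := by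
    rw [hμ]
    exact hprim.card_nthRootsFinset
  -- the transversal
  have hex : ∀ x : K, ∃ g : K ≃ₐ[ℚ] K, x ∈ orb α → g y = x := by
    intro x
    by_cases hx : x ∈ orb α
    · obtain ⟨g, rfl⟩ := mem_orb.1 hx
      obtain ⟨g', rfl⟩ := mem_orb.1 hy
      refine ⟨g'.symm.trans g, fun _ => ?_⟩
      show g (g'.symm (g' α)) = _
      rw [AlgEquiv.symm_apply_apply]
    · exact ⟨1, fun h => absurd h hx⟩
  choose G hG using hex
  have h1 : ∏ x ∈ orb α, (y ^ (p * p) - x ^ p) =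
      ∏ w ∈ μ, ∏ x ∈ orb α, (y ^ p - G x (w * y)) := by
    rw [Finset.prod_comm]
    refine Finset.prod_congr rfl fun x hx => ?_
    rw [pow_mul, hprim.pow_sub_pow_eq_prod_sub_mul _ _ hp.pos]
    symm
    refine Finset.prod_nbij (fun w => G x w) ?_ ?_ ?_ ?_
    · intro w hw
      rw [hmem] at hw ⊢
      rw [← map_pow, hw, map_one]
    · intro w _ w' _ h
      exact (G x).injective h
    · intro w hw
      refine ⟨(G x).symm w, ?_, ?_⟩
      · rw [Finset.mem_coe, hmem]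
        rw [Finset.mem_coe, hmem] at hw
        rw [← map_pow, hw, map_one]
      · simp
    · intro w _
      rw [map_mul, hG x hx]
  have hyi : IsIntegral ℤ y := orb_integral hα hy
  have hμi : ∀ w ∈ μ, IsIntegral ℤ w := by
    intro w hw
    rw [hmem] at hw
    exact IsIntegral.of_pow hp.pos (by rw [hw]; exact isIntegral_one)
  have h2 : ∀ w ∈ μ, ∃ c : K, IsIntegral ℤ c ∧
      ∏ x ∈ orb α, (y ^ p - G x (w * y)) = (p : K) * c := by
    intro w hw
    have hwp := (hmem w).1 hw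
    have hγ : IsIntegral ℤ (w * y) := (hμi w hw).mul hyi
    obtain ⟨c, hc, hc2⟩ := prod_orb_pow (w * y) hγ p hp
    have hγp : (w * y) ^ p = y ^ p := by rw [mul_pow, hwp, one_mul]
    rw [hγp] at hc2
    have himg : (orb α).image (fun x => G x (w * y)) = orb (w * y) := by
      ext b
      rw [Finset.mem_image]
      constructor
      · rintro ⟨x, -, rfl⟩
        exact mem_orb.2 ⟨G x, rfl⟩
      · intro hb
        obtain ⟨h, rfl⟩ := mem_orb.1 hb
        have hx : h y ∈ orb α := map_mem_orb hy h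
        refine ⟨h y, hx, ?_⟩
        have h3 : h.symm (G (h y) y) = y := by
          rw [hG _ hx, AlgEquiv.symm_apply_apply]
        have h4 := hfix y hy ((G (h y)).trans h.symm) h3 w hwp
        have h5 : h.symm (G (h y) w) = w := h4
        rw [AlgEquiv.symm_apply_eq] at h5
        rw [map_mul, map_mul, h5, hG _ hx]
    refine ⟨c * ∏ b ∈ orb (w * y),
      (y ^ p - b) ^ (((orb α).filter fun x => G x (w * y) = b).card - 1), ?_, ?_⟩
    · refine hc.mul (IsIntegral.prod _ fun b hb => ?_)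
      exact ((hyi.pow p).sub (orb_integral hγ hb)).pow _
    · rw [Finset.prod_comp (fun b => y ^ p - b) (fun x => G x (w * y)), himg, ← mul_assoc, ← hc2,
        ← Finset.prod_mul_distrib]
      refine Finset.prod_congr rfl fun b hb => ?_
      rw [← himg, Finset.mem_image] at hb
      obtain ⟨x, hx, hxb⟩ := hb
      have h6 : 0 < ((orb α).filter fun x => G x (w * y) = b).card :=
        Finset.card_pos.2 ⟨x, Finset.mem_filter.2 ⟨hx, hxb⟩⟩
      rw [← pow_succ', Nat.sub_add_cancel h6]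
  choose! C hC hC2 using h2
  refine ⟨∏ w ∈ μ, C w, IsIntegral.prod _ hC, ?_⟩
  rw [h1, Finset.prod_congr rfl hC2, Finset.prod_mul_distrib, Finset.prod_const, hcard]

/-- (B3) -/
theorem log_res_bad (σ : K →+* ℂ) (α : K) (hα : IsIntegral ℤ α) (hα0 : α ≠ 0) {p : ℕ}
    (hp : p.Prime)
    (hno : ∀ s : Finset K, (∀ x ∈ s, x ∈ orb α ∧ x ^ p = α ^ p) → s.card < p)
    (hbad : ∃ x ∈ orb α, ∃ y ∈ orb α, x ≠ y ∧ x ^ p = y ^ p)
    (hne : ∀ x ∈ orb α, ∀ y ∈ orb α, x ^ p ≠ y ^ (p * p)) :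
    (p : ℝ) * ((orb α).card * Real.log p) ≤
      ∑ x ∈ orb α, ∑ y ∈ orb α, Real.log ‖σ x ^ p - σ y ^ (p * p)‖ := by
  classical
  have hz : ∃ z : K, z ^ p = 1 ∧ z ≠ 1 := by
    obtain ⟨z, h1, h2, -⟩ := bad_root hp hα0 hno hbad
    exact ⟨z, h1, h2⟩
  have h2 := prod_bad α hα hp hz
    (fun x hx s hs w hw => bad_fix hp hα0 hno hbad hx s hs hw)
  choose! C hC hC2 using h2
  set R : K := ∏ y ∈ orb α, ∏ x ∈ orb α, (y ^ (p * p) - x ^ p) with hR
  have hRC : R = ((p : K) ^ p) ^ (orb α).card * ∏ y ∈ orb α, C y := by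
    rw [hR, Finset.prod_congr rfl hC2, Finset.prod_mul_distrib, Finset.prod_const]
  have hpK : (p : K) ≠ 0 := Nat.cast_ne_zero.2 hp.ne_zero
  have hR0 : R ≠ 0 := by
    refine Finset.prod_ne_zero_iff.2 fun y hy => Finset.prod_ne_zero_iff.2 fun x hx => ?_
    exact sub_ne_zero.2 fun h => hne x hx y hy h.symm
  have hRg : ∀ g : K ≃ₐ[ℚ] K, g R = R := by
    intro g
    rw [hR, map_prod]
    simp_rw [map_prod, map_sub, map_pow]
    rw [← prod_orb_map g α fun y => ∏ x ∈ orb α, (y ^ (p * p) - x ^ p)]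
    refine Finset.prod_congr rfl fun y _ => ?_
    exact prod_orb_map g α fun x => (g y) ^ (p * p) - x ^ p
  have hC0 : ∏ y ∈ orb α, C y ≠ 0 := by
    intro h
    rw [hRC, h, mul_zero] at hR0
    exact hR0 rfl
  have hCg : ∀ g : K ≃ₐ[ℚ] K, g (∏ y ∈ orb α, C y) = ∏ y ∈ orb α, C y := by
    intro g
    have h3 := hRg g
    rw [hRC, map_mul, map_pow, map_pow, map_natCast] at h3
    exact mul_left_cancel₀ (pow_ne_zero _ (pow_ne_zero _ hpK)) h3
  have h4 := log_norm_nonneg σ _ (IsIntegral.prod _ hC) hC0 hCg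
  have h5 : Real.log ‖σ R‖ = (p : ℝ) * ((orb α).card * Real.log p) +
      Real.log ‖σ (∏ y ∈ orb α, C y)‖ := by
    rw [hRC, map_mul, norm_mul, Real.log_mul]
    · rw [map_pow, map_pow, map_natCast, norm_pow, norm_pow, Complex.norm_natCast, Real.log_pow,
        Real.log_pow]
      ring
    · rw [norm_ne_zero_iff, map_ne_zero]
      exact pow_ne_zero _ (pow_ne_zero _ hpK)
    · rw [norm_ne_zero_iff, map_ne_zero]
      exact hC0
  have h6 : Real.log ‖σ R‖ =
      ∑ x ∈ orb α, ∑ y ∈ orb α, Real.log ‖σ x ^ p - σ y ^ (p * p)‖ := by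
    rw [Finset.sum_comm, hR, map_prod, norm_prod, Real.log_prod]
    · refine Finset.sum_congr rfl fun y hy => ?_
      rw [map_prod, norm_prod, Real.log_prod]
      · refine Finset.sum_congr rfl fun x hx => ?_
        rw [map_sub, map_pow, map_pow, norm_sub_rev]
      · intro x hx
        rw [norm_ne_zero_iff, map_ne_zero]
        exact sub_ne_zero.2 fun h => hne x hx y hy h.symm
    · intro y hy
      rw [norm_ne_zero_iff, map_ne_zero]
      refine Finset.prod_ne_zero_iff.2 fun x hx => ?_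
      exact sub_ne_zero.2 fun h => hne x hx y hy h.symm
  rw [← h6, h5]
  linarith

open Classical in
/-- the arithmetic package for the main inequality: `n = 1` or `n = p` -/
theorem pack (σ : K →+* ℂ) (α : K) (hα : IsIntegral ℤ α)
    (hne : ∀ m n : ℕ, 0 < m → 0 < n → m ≠ n → ∀ x ∈ orb α, ∀ y ∈ orb α, x ^ m ≠ y ^ n)
    {p : ℕ} (hp : p.Prime) (hb : ((orb α).filter fun x => x ^ p = α ^ p).card < p) :
    ∃ n : ℕ, 0 < n ∧ n ≤ p ∧
      (∀ x ∈ orb α, ((orb α).filter fun y => y ^ p = x ^ p).card ≤ n) ∧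
      (∀ x ∈ orb α, ∀ y ∈ orb α, x ^ (p * n) = y ^ (p * n) → x ^ p = y ^ p) ∧
      (n : ℝ) * (orb α).card * Real.log p ≤
        ∑ x ∈ orb α, ∑ y ∈ orb α, Real.log ‖σ x ^ n - σ y ^ (p * n)‖ := by
  have hα0 : α ≠ 0 := by
    intro h0
    have h1 := hne 1 2 one_pos two_pos (by norm_num) α (mem_orb.2 ⟨1, rfl⟩) α (mem_orb.2 ⟨1, rfl⟩)
    rw [h0] at h1
    exact h1 (by simp)
  have hfib : ∀ x ∈ orb α, ((orb α).filter fun y => y ^ p = x ^ p).card < p := by
    intro x hx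
    obtain ⟨g, rfl⟩ := mem_orb.1 hx
    refine lt_of_le_of_lt (Finset.card_le_card_of_injOn (fun y => g.symm y) ?_ ?_) hb
    · intro y hy
      rw [Finset.mem_coe, Finset.mem_filter] at hy ⊢
      refine ⟨map_mem_orb hy.1 g.symm, ?_⟩
      rw [← map_pow, hy.2, ← map_pow g, AlgEquiv.symm_apply_apply]
    · intro y _ z _ h
      exact g.symm.injective h
  by_cases hinj : ∀ x ∈ orb α, ∀ y ∈ orb α, x ^ p = y ^ p → x = y
  · refine ⟨1, one_pos, hp.one_lt.le, ?_, ?_, ?_⟩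
    · intro x hx
      refine Finset.card_le_one.2 fun a ha b hb => ?_
      rw [Finset.mem_filter] at ha hb
      exact hinj a ha.1 b hb.1 (ha.2.trans hb.2.symm)
    · intro x _ y _ h
      rwa [mul_one] at h
    · have h2 := log_res_prime σ α hα p hp (fun x hx y hy => by
        have := hne p 1 hp.pos one_pos hp.one_lt.ne' x hx y hy
        rwa [pow_one] at this)
      have h3 : ∑ x ∈ orb α, ∑ y ∈ orb α, Real.log ‖σ x ^ 1 - σ y ^ (p * 1)‖ =
          ∑ x ∈ orb α, ∑ y ∈ orb α, Real.log ‖σ x ^ p - σ y‖ := by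
        rw [Finset.sum_comm]
        refine Finset.sum_congr rfl fun x _ => Finset.sum_congr rfl fun y _ => ?_
        rw [pow_one, mul_one, norm_sub_rev]
      rw [h3, Nat.cast_one, one_mul]
      exact h2
  · push Not at hinj
    obtain ⟨x, hx, y, hy, he, hxy⟩ := hinj
    have hbad : ∃ x ∈ orb α, ∃ y ∈ orb α, x ≠ y ∧ x ^ p = y ^ p := ⟨x, hx, y, hy, hxy, he⟩
    have hno : ∀ s : Finset K, (∀ x ∈ s, x ∈ orb α ∧ x ^ p = α ^ p) → s.card < p := by
      intro s hs
      refine lt_of_le_of_lt (Finset.card_le_card fun x hx => ?_) hb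
      exact Finset.mem_filter.2 (hs x hx)
    refine ⟨p, hp.pos, le_rfl, fun x hx => (hfib x hx).le, ?_, ?_⟩
    · intro x hx y hy h
      exact bad_pow hp hα0 hno hbad hx hy h
    · have hlt : p < p * p := by
        have := hp.one_lt
        nlinarith
      have h1 := log_res_bad σ α hα hα0 hp hno hbad
        (hne p (p * p) hp.pos (Nat.mul_pos hp.pos hp.pos) hlt.ne)
      rw [mul_assoc]
      exact h1

end

end H95.LB
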