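import Pool.Agent.H95.LB.Blocks
import Pool.Agent.H82.LB.W4
import Pool.Agent.H73.LB.MainA

/-!
# LBA, block E': the energy of the blocks, from the mean of `log⁺ |F|`
-/

set_option autoImplicit false

namespace H82.LB

open H25.Arith H73.LB

section

variable {ι : Type} [Fintype ι]

/-- the radii of the second argument -/
theorem kr_split {z : ι → ℂ} (hz : ∀ i, ‖z i‖ ≤ 1) {r : ι → ℝ} (h0 : ∀ i, 0 ≤ r i)
    (h1 : ∀ i, r i ≤ 1) {w : ℂ} (hw : ‖w‖ < 1) :
    ∑ j, kr w (r j * z j) ≤ ∑ j, kr w (z j) + ∑ j, (1 - r j) := by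
  have h := energy_pt_V (L := 0) hz h0 h1 hw
  have e : V z 0 w - 0 = ∑ j, kr w (z j) := by
    unfold V kr
    rw [Finset.sum_neg_distrib]
    ring
  rwa [e] at h

theorem block_of_pt [Nonempty ι] {C : ℝ} (hC : 1 ≤ C) (z : ι → ℂ) (L : ℝ)
    (hz : ∀ i, ‖z i‖ ≤ 1) (hL : 0 ≤ L) (δ : ι → ℝ) (hδ0 : ∀ i, 0 < δ i)
    (hδ1 : ∀ i, δ i ≤ 1 / 2) (hδs : ∑ i, δ i ≤ C * (1 + L))
    (hV : ∀ i, ∀ s : ℝ, 0 < s → s ≤ 1 / 2 → ∑ j, kr ((1 - s : ℝ) * z i) (z j) ≤
      C * Fintype.card ι * (s + (1 - ‖z i‖) + δ i * Real.log (2 + δ i / s)))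
    (n : ℕ) (hn : 1 ≤ n) (b : ι → Finset ι) (hsym : ∀ i j, j ∈ b i ↔ i ∈ b j)
    (hcard : ∀ i, (b i).card ≤ n) (ε : ℝ) (hε0 : 0 < ε) (hε : ε ≤ 1 / 4) :
    ∃ r : ι → ℝ, (∀ i, 1 / 2 ≤ r i) ∧ (∀ i, r i ≤ 1) ∧ (∀ i, ‖(r i : ℂ) * z i‖ < 1) ∧
      ∑ i, (1 - r i) ≤ (4 * C ^ 2) * ε * (1 + L) ∧
      (1 / (n : ℝ)) * ∑ i, ∑ j ∈ b i, ∑ k, kr (r i * z j) (r k * z k) ≤
        (4 * C ^ 2) * Fintype.card ι * (1 + L) * (Real.log (n / ε) + ∑ i, (1 - ‖z i‖)) := by
  classical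
  have hn0 : (0 : ℝ) < n := by exact_mod_cast hn
  have hn1 : (1 : ℝ) ≤ n := by exact_mod_cast hn
  have hC0 : 0 < C := by linarith
  set N : ℝ := (Fintype.card ι : ℝ) with hNdef
  have hN : 0 ≤ N := Nat.cast_nonneg _
  set D : ι → ℝ := fun i => δ i + (1 / (n : ℝ)) * ∑ j ∈ b i, δ j with hD
  have hDsum0 : ∀ i, 0 ≤ ∑ j ∈ b i, δ j := fun i => Finset.sum_nonneg fun j _ => (hδ0 j).le
  have hD0 : ∀ i, 0 < D i := fun i => by
    have h1 := hδ0 i
    have h2 := hDsum0 i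
    have h3 : 0 ≤ (1 / (n : ℝ)) * ∑ j ∈ b i, δ j := by positivity
    rw [hD]
    simp only
    linarith
  have hD1 : ∀ i, D i ≤ 1 := by
    intro i
    have h1 : ∑ j ∈ b i, δ j ≤ n * (1 / 2) := by
      calc ∑ j ∈ b i, δ j ≤ ∑ j ∈ b i, (1 / 2 : ℝ) := Finset.sum_le_sum fun j _ => hδ1 j
        _ = (b i).card * (1 / 2) := by rw [Finset.sum_const, nsmul_eq_mul]
        _ ≤ n * (1 / 2) := by
          apply mul_le_mul_of_nonneg_right _ (by norm_num)
          exact_mod_cast hcard i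
    have h2 : (1 / (n : ℝ)) * ∑ j ∈ b i, δ j ≤ 1 / 2 := by
      rw [one_div, inv_mul_le_iff₀ hn0]
      exact h1
    have h3 := hδ1 i
    rw [hD]
    simp only
    linarith
  have hDj : ∀ i, ∀ j ∈ b i, δ j ≤ n * D i := by
    intro i j hj
    have h1 : δ j ≤ ∑ j ∈ b i, δ j := Finset.single_le_sum (fun k _ => (hδ0 k).le) hj
    have h2 : n * D i = n * δ i + ∑ j ∈ b i, δ j := by
      rw [hD]
      simp only
      field_simp
    have h3 := hδ0 i
    rw [h2]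
    have h4 : 0 ≤ n * δ i := by positivity
    linarith
  have hDs : ∑ i, D i ≤ 2 * (C * (1 + L)) := by
    rw [hD]
    simp only
    rw [Finset.sum_add_distrib, ← Finset.mul_sum]
    have h1 := sum_blocks hsym hcard (F := δ) fun i => (hδ0 i).le
    have h2 : (1 / (n : ℝ)) * ∑ i, ∑ j ∈ b i, δ j ≤ ∑ i, δ i := by
      rw [one_div, inv_mul_le_iff₀ hn0]
      exact h1
    linarith
  set r : ι → ℝ := fun i => 1 - ε * D i with hr
  have hεD0 : ∀ i, 0 < ε * D i := fun i => mul_pos hε0 (hD0 i)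
  have hεD1 : ∀ i, ε * D i ≤ 1 / 4 := fun i => by
    have h1 := mul_le_mul hε (hD1 i) (hD0 i).le (by norm_num)
    linarith
  have hr2 : ∀ i, 1 / 2 ≤ r i := fun i => by
    have := hεD1 i
    rw [hr]
    simp only
    linarith
  have hr1 : ∀ i, r i ≤ 1 := fun i => by
    have := hεD0 i
    rw [hr]
    simp only
    linarith
  have hrz : ∀ i j, ‖(r i : ℂ) * z j‖ < 1 := by
    intro i j
    rw [norm_mul, Complex.norm_real, Real.norm_of_nonneg (by linarith [hr2 i])]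
    have h1 : r i < 1 := by
      have := hεD0 i
      rw [hr]
      simp only
      linarith
    have h2 := hr2 i
    have h3 := hz j
    have h4 := norm_nonneg (z j)
    nlinarith
  have hrs : ∑ i, (1 - r i) ≤ 2 * C * ε * (1 + L) := by
    have h1 : ∑ i, (1 - r i) = ε * ∑ i, D i := by
      rw [Finset.mul_sum]
      refine Finset.sum_congr rfl fun i _ => ?_
      rw [hr]
      simp only
      ring
    rw [h1]
    calc ε * ∑ i, D i ≤ ε * (2 * (C * (1 + L))) := mul_le_mul_of_nonneg_left hDs hε0.le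
      _ = 2 * C * ε * (1 + L) := by ring
  set Λ : ℝ := Real.log (n / ε) with hΛ
  have hnε : 4 ≤ n / ε := by
    rw [le_div_iff₀ hε0]
    linarith
  have hΛ1 : 1 ≤ Λ := by
    have h1 : Real.log 4 ≤ Λ := Real.log_le_log (by norm_num) hnε
    have h2 : Real.log 4 = 2 * Real.log 2 := by
      rw [show (4 : ℝ) = 2 ^ 2 by norm_num, Real.log_pow]
      norm_num
    have h3 := Real.log_two_gt_d9
    linarith
  have hΛ2 : Real.log (2 + n / ε) ≤ 2 * Λ := by
    have h1 : 2 + n / ε ≤ (n / ε) ^ 2 := by nlinarith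
    have h2 := Real.log_le_log (by linarith) h1
    rw [Real.log_pow] at h2
    push_cast at h2
    exact h2
  refine ⟨r, hr2, hr1, fun i => hrz i i, ?_, ?_⟩
  · refine hrs.trans ?_
    have h1 : 2 * C ≤ 4 * C ^ 2 := by nlinarith
    have h2 : 0 ≤ ε * (1 + L) := by positivity
    nlinarith [mul_le_mul_of_nonneg_right h1 h2]
  · -- the pointwise bound
    have hpt : ∀ i, ∀ j ∈ b i, ∑ k, kr (r i * z j) (r k * z k) ≤
        C * N * (ε * D i) + C * N * (1 - ‖z j‖) + C * N * (2 * Λ) * δ j +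
          (C * (1 + L) + 2 * C * ε * (1 + L)) := by
      intro i j hj
      have h1 := kr_split hz (fun k => (by linarith [hr2 k] : 0 ≤ r k)) hr1 (hrz i j)
      have h2 := hV j (ε * D i) (hεD0 i) (by linarith [hεD1 i])
      have h3 : Real.log (2 + δ j / (ε * D i)) ≤ 2 * Λ := by
        refine le_trans (Real.log_le_log ?_ ?_) hΛ2
        · have := div_pos (hδ0 j) (hεD0 i)
          linarith
        · have h4 : δ j / (ε * D i) ≤ n / ε := by
            rw [div_le_div_iff₀ (hεD0 i) hε0]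
            have h5 := mul_le_mul_of_nonneg_left (hDj i j hj) hε0.le
            nlinarith
          linarith
      have h4 : δ j * Real.log (2 + δ j / (ε * D i)) ≤ δ j * (2 * Λ) :=
        mul_le_mul_of_nonneg_left h3 (hδ0 j).le
      have h5 : C * N * (ε * D i + (1 - ‖z j‖) + δ j * Real.log (2 + δ j / (ε * D i))) ≤
          C * N * (ε * D i + (1 - ‖z j‖) + δ j * (2 * Λ)) :=
        mul_le_mul_of_nonneg_left (by linarith) (by positivity)
      have e : ((1 - ε * D i : ℝ) : ℂ) = (r i : ℂ) := rfl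
      rw [e] at h2
      calc ∑ k, kr (r i * z j) (r k * z k)
          ≤ ∑ k, kr (r i * z j) (z k) + ∑ k, (1 - r k) := h1
        _ ≤ C * N * (ε * D i + (1 - ‖z j‖) + δ j * (2 * Λ)) + C * (1 + L) +
            2 * C * ε * (1 + L) := by
            have h7 : 0 ≤ C * (1 + L) := by positivity
            linarith
        _ = _ := by ring
    have hsum : ∑ i, ∑ j ∈ b i, ∑ k, kr (r i * z j) (r k * z k) ≤
        n * (C * N * (ε * ∑ i, D i)) + n * (C * N * ∑ j, (1 - ‖z j‖)) +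
          n * (C * N * (2 * Λ) * ∑ j, δ j) + n * (N * (C * (1 + L) + 2 * C * ε * (1 + L))) := by
      have h1 : ∑ i, ∑ j ∈ b i, ∑ k, kr (r i * z j) (r k * z k) ≤
          ∑ i, ∑ j ∈ b i, (C * N * (ε * D i) + C * N * (1 - ‖z j‖) + C * N * (2 * Λ) * δ j +
          (C * (1 + L) + 2 * C * ε * (1 + L))) :=
        Finset.sum_le_sum fun i _ => Finset.sum_le_sum fun j hj => hpt i j hj
      refine h1.trans ?_
      simp only [Finset.sum_add_distrib]
      have hCN : 0 ≤ C * N := by positivity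
      have g1 : ∑ i, ∑ j ∈ b i, C * N * (ε * D i) ≤ n * (C * N * (ε * ∑ i, D i)) := by
        calc ∑ i, ∑ j ∈ b i, C * N * (ε * D i) = ∑ i, (b i).card * (C * N * (ε * D i)) := by
              refine Finset.sum_congr rfl fun i _ => ?_
              rw [Finset.sum_const, nsmul_eq_mul]
          _ ≤ ∑ i, n * (C * N * (ε * D i)) := by
              refine Finset.sum_le_sum fun i _ => ?_
              apply mul_le_mul_of_nonneg_right
              · exact_mod_cast hcard i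
              · exact mul_nonneg hCN (hεD0 i).le
          _ = n * (C * N * (ε * ∑ i, D i)) := by
              rw [← Finset.mul_sum, ← Finset.mul_sum, ← Finset.mul_sum]
      have g2 : ∑ i, ∑ j ∈ b i, C * N * (1 - ‖z j‖) ≤ n * (C * N * ∑ j, (1 - ‖z j‖)) := by
        have := sum_blocks hsym hcard (F := fun j => C * N * (1 - ‖z j‖))
          (fun j => mul_nonneg hCN (by linarith [hz j]))
        rwa [← Finset.mul_sum] at this
      have g3 : ∑ i, ∑ j ∈ b i, C * N * (2 * Λ) * δ j ≤ n * (C * N * (2 * Λ) * ∑ j, δ j) := by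
        have := sum_blocks hsym hcard (F := fun j => C * N * (2 * Λ) * δ j)
          (fun j => mul_nonneg (mul_nonneg hCN (by linarith)) (hδ0 j).le)
        rwa [← Finset.mul_sum] at this
      have g4 : ∑ i, ∑ _j ∈ b i, C * (1 + L) ≤ n * (N * (C * (1 + L))) := by
        have := sum_blocks hsym hcard (F := fun _ => C * (1 + L))
          (fun j => by positivity)
        rwa [Finset.sum_const, Finset.card_univ, nsmul_eq_mul] at this
      have g5 : ∑ i, ∑ _j ∈ b i, 2 * C * ε * (1 + L) ≤ n * (N * (2 * C * ε * (1 + L))) := by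
        have := sum_blocks hsym hcard (F := fun _ => 2 * C * ε * (1 + L))
          (fun j => by positivity)
        rwa [Finset.sum_const, Finset.card_univ, nsmul_eq_mul] at this
      linarith
    have hS : 0 ≤ ∑ j, (1 - ‖z j‖) := Finset.sum_nonneg fun j _ => by linarith [hz j]
    have hn' : (1 / (n : ℝ)) * ∑ i, ∑ j ∈ b i, ∑ k, kr (r i * z j) (r k * z k) ≤
        C * N * (ε * ∑ i, D i) + C * N * ∑ j, (1 - ‖z j‖) +
          C * N * (2 * Λ) * ∑ j, δ j + N * (C * (1 + L) + 2 * C * ε * (1 + L)) := by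
      rw [one_div, inv_mul_le_iff₀ hn0]
      refine hsum.trans (le_of_eq (by ring))
    refine hn'.trans ?_
    have hCN : 0 ≤ C * N := by positivity
    have hL1 : 0 ≤ 1 + L := by linarith
    have k1 : C * N * (ε * ∑ i, D i) ≤ C * N * (1 / 4 * (2 * (C * (1 + L))) * Λ) := by
      apply mul_le_mul_of_nonneg_left _ hCN
      have h1 : 0 ≤ 2 * (C * (1 + L)) := by positivity
      calc ε * ∑ i, D i ≤ 1 / 4 * (2 * (C * (1 + L))) := by
            apply mul_le_mul hε hDs (Finset.sum_nonneg fun i _ => (hD0 i).le) (by norm_num)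
        _ ≤ 1 / 4 * (2 * (C * (1 + L))) * Λ := by
            apply le_mul_of_one_le_right (by positivity) hΛ1
    have k2 : C * N * ∑ j, (1 - ‖z j‖) ≤ 4 * C ^ 2 * N * (1 + L) * ∑ j, (1 - ‖z j‖) := by
      apply mul_le_mul_of_nonneg_right _ hS
      have h1 : C ≤ 4 * C ^ 2 * (1 + L) := by
        have h2 : C * 1 ≤ C * (4 * C * (1 + L)) := by
          apply mul_le_mul_of_nonneg_left _ hC0.le
          nlinarith [mul_nonneg hC0.le hL]
        nlinarith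
      nlinarith [mul_le_mul_of_nonneg_right h1 hN]
    have k3 : C * N * (2 * Λ) * ∑ j, δ j ≤ C * N * (2 * Λ) * (C * (1 + L)) :=
      mul_le_mul_of_nonneg_left hδs (mul_nonneg hCN (by linarith))
    have k4 : N * (C * (1 + L) + 2 * C * ε * (1 + L)) ≤ N * (3 / 2 * C ^ 2 * (1 + L) * Λ) := by
      apply mul_le_mul_of_nonneg_left _ hN
      have h1 : C * (1 + L) + 2 * C * ε * (1 + L) ≤ 3 / 2 * (C * (1 + L)) := by
        have h2 : 2 * ε * (C * (1 + L)) ≤ 1 / 2 * (C * (1 + L)) :=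
          mul_le_mul_of_nonneg_right (by linarith) (by positivity)
        linarith
      have h3 : C * (1 + L) ≤ C ^ 2 * (1 + L) := by
        apply mul_le_mul_of_nonneg_right _ hL1
        nlinarith
      have h4 : C ^ 2 * (1 + L) ≤ C ^ 2 * (1 + L) * Λ :=
        le_mul_of_one_le_right (by positivity) hΛ1
      linarith
    have e1 : C * N * (1 / 4 * (2 * (C * (1 + L))) * Λ) + C * N * (2 * Λ) * (C * (1 + L)) +
        N * (3 / 2 * C ^ 2 * (1 + L) * Λ) = 4 * C ^ 2 * N * (1 + L) * Λ := by ring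
    have e2 : 4 * C ^ 2 * N * (1 + L) * (Λ + ∑ i, (1 - ‖z i‖)) =
        4 * C ^ 2 * N * (1 + L) * Λ + 4 * C ^ 2 * N * (1 + L) * ∑ j, (1 - ‖z j‖) := by ring
    rw [e2, ← e1]
    linarith

/-- block E' -/
theorem block_energy : ∃ C : ℝ, 1 ≤ C ∧ ∀ {ι : Type} [Fintype ι] [Nonempty ι] (z : ι → ℂ) (L : ℝ),
      (∀ i, ‖z i‖ ≤ 1) → 0 ≤ L →
      Real.circleAverage (fun w => Real.posLog (∏ i, ‖1 - w * starRingEnd ℂ (z i)‖)) 0 1 ≤ L →
      ∀ (n : ℕ), 1 ≤ n → ∀ (b : ι → Finset ι), (∀ i j, j ∈ b i ↔ i ∈ b j) →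
      (∀ i, (b i).card ≤ n) → ∀ ε : ℝ, 0 < ε → ε ≤ 1 / 4 →
      ∃ r : ι → ℝ, (∀ i, 1 / 2 ≤ r i) ∧ (∀ i, r i ≤ 1) ∧ (∀ i, ‖(r i : ℂ) * z i‖ < 1) ∧
        ∑ i, (1 - r i) ≤ C * ε * (1 + L) ∧
        (1 / (n : ℝ)) * ∑ i, ∑ j ∈ b i, ∑ k, kr (r i * z j) (r k * z k) ≤
          C * Fintype.card ι * (1 + L) * (Real.log (n / ε) + ∑ i, (1 - ‖z i‖)) := by
  obtain ⟨C, hC, h⟩ := energy_pt
  refine ⟨4 * C ^ 2, by nlinarith, ?_⟩
  intro ι _ _ z L hz hL hF n hn b hsym hcard ε hε0 hε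
  obtain ⟨δ, hδ0, hδ1, hδs, hV⟩ := h z L hz hF
  exact block_of_pt hC z L hz hL δ hδ0 hδ1 hδs hV n hn b hsym hcard ε hε0 hε

end

open Classical in
/-- the block energy in the form of the main inequality -/
theorem energy_orb_blocks {C : ℝ} (hen : ∀ {ι : Type} [Fintype ι] [Nonempty ι] (z : ι → ℂ)
      (L : ℝ), (∀ i, ‖z i‖ ≤ 1) → 0 ≤ L →
      Real.circleAverage (fun w => Real.posLog (∏ i, ‖1 - w * starRingEnd ℂ (z i)‖)) 0 1 ≤ L →
      ∀ (n : ℕ), 1 ≤ n → ∀ (b : ι → Finset ι), (∀ i j, j ∈ b i ↔ i ∈ b j) →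
      (∀ i, (b i).card ≤ n) → ∀ ε : ℝ, 0 < ε → ε ≤ 1 / 4 →
      ∃ r : ι → ℝ, (∀ i, 1 / 2 ≤ r i) ∧ (∀ i, r i ≤ 1) ∧ (∀ i, ‖(r i : ℂ) * z i‖ < 1) ∧
        ∑ i, (1 - r i) ≤ C * ε * (1 + L) ∧
        (1 / (n : ℝ)) * ∑ i, ∑ j ∈ b i, ∑ k, kr (r i * z j) (r k * z k) ≤
          C * Fintype.card ι * (1 + L) * (Real.log (n / ε) + ∑ i, (1 - ‖z i‖)))
    {K : Type} [Field K] [NumberField K] (σ : K →+* ℂ) (α : K) {L m : ℝ} (hC : 1 ≤ C)
    (hL : 0 ≤ L)
    (hcard : 1 ≤ (orb α).card) (hrf : ∑ x ∈ orb α, (1 - ‖rf (σ x)‖) ≤ 2 * m)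
    (hprod : Real.circleAverage
      (fun w => Real.posLog (∏ x ∈ orb α, ‖1 - w * starRingEnd ℂ (rf (σ x))‖)) 0 1 ≤ L)
    (p n : ℕ) (hn : 1 ≤ n)
    (hblk : ∀ x ∈ orb α, (blk α p x).card ≤ n)
    {ε : ℝ} (hε : 0 < ε) (hε2 : ε ≤ 1 / 4) :
    ∃ s : K → ℝ, (∀ x ∈ orb α, 0 ≤ s x) ∧
      (∀ x ∈ orb α, s x ≤ 1) ∧ (∀ x ∈ orb α, ‖(s x : ℂ) * rf (σ x)‖ < 1) ∧
      ∑ x ∈ orb α, (1 - s x) ≤ C * ε * (1 + L) ∧
      (1 / (n : ℝ)) * ∑ x ∈ orb α, ∑ y ∈ blk α p x,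
          ∑ y' ∈ orb α, kr (s x * rf (σ y)) (s y' * rf (σ y')) ≤
        C * (orb α).card * (1 + L) * (Real.log (n / ε) + 2 * m) := by
  have hnonempty : Nonempty {x // x ∈ orb α} := by
    obtain ⟨x, hx⟩ := Finset.card_pos.1 (by omega : 0 < (orb α).card)
    exact ⟨⟨x, hx⟩⟩
  let b : {x // x ∈ orb α} → Finset {x // x ∈ orb α} := fun x =>
    Finset.univ.filter fun y => (y : K) ^ p = (x : K) ^ p
  obtain ⟨r, hr12, hr1, hrlt, hη, hE⟩ := hen (ι := {x // x ∈ orb α})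
    (fun x => rf (σ x)) L (fun x => rf_norm_le _) hL (by
      refine le_trans (le_of_eq ?_) hprod
      refine congrArg (fun F : ℂ → ℝ => Real.circleAverage F 0 1) (funext fun w => ?_)
      exact congrArg Real.posLog (Finset.prod_coe_sort (orb α)
        (fun x => ‖1 - w * starRingEnd ℂ (rf (σ x))‖))) n hn b (by
      intro i j
      simp only [b, Finset.mem_filter, Finset.mem_univ, true_and]
      exact eq_comm) (by
      intro i
      refine le_trans (Finset.card_le_card_of_injOn (fun y => (y : K)) ?_ ?_) (hblk i i.2)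
      · intro y hy
        rw [Finset.mem_coe] at hy
        simp only [b, Finset.mem_filter, Finset.mem_univ, true_and] at hy
        rw [Finset.mem_coe, mem_blk]
        exact ⟨y.2, hy⟩
      · intro x _ y _ h
        exact Subtype.ext h) ε hε hε2
  let s : K → ℝ := fun x => if h : x ∈ orb α then r ⟨x, h⟩ else 1
  have hs' : ∀ x : {x // x ∈ orb α}, s x = r x := fun x => by
    simp only [s, x.2, dite_true]
  have s1 : ∑ x ∈ orb α, (1 - s x) = ∑ x : {x // x ∈ orb α}, (1 - r x) := by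
    rw [← Finset.sum_coe_sort]
    exact Finset.sum_congr rfl fun x _ => by rw [hs']
  have s2 : ∑ x ∈ orb α, ∑ y ∈ blk α p x,
      ∑ y' ∈ orb α, kr (s x * rf (σ y)) (s y' * rf (σ y')) =
      ∑ x : {x // x ∈ orb α}, ∑ y ∈ b x, ∑ y' : {x // x ∈ orb α},
        kr (r x * rf (σ y)) (r y' * rf (σ y')) := by
    rw [← Finset.sum_coe_sort]
    refine Finset.sum_congr rfl fun x _ => ?_
    unfold blk
    rw [Finset.sum_filter, ← Finset.sum_coe_sort, Finset.sum_filter]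
    refine Finset.sum_congr rfl fun y _ => ?_
    by_cases h : (y : K) ^ p = (x : K) ^ p
    · rw [if_pos h, if_pos h, ← Finset.sum_coe_sort]
      exact Finset.sum_congr rfl fun y' _ => by rw [hs', hs']
    · rw [if_neg h, if_neg h]
  have s3 : ∑ x : {x // x ∈ orb α}, (1 - ‖rf (σ (x : K))‖) ≤ 2 * m := by
    rw [Finset.sum_coe_sort (orb α) (fun x => 1 - ‖rf (σ x)‖)]
    exact hrf
  have hcd : (Fintype.card {x // x ∈ orb α} : ℝ) = (orb α).card := by
    rw [Fintype.card_coe]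
  refine ⟨s, ?_, ?_, ?_, ?_, ?_⟩
  · intro x hx
    have h6 := hr12 ⟨x, hx⟩
    rw [← hs' ⟨x, hx⟩] at h6
    exact le_trans (by norm_num) h6
  · intro x hx
    have h6 := hr1 ⟨x, hx⟩
    rw [← hs' ⟨x, hx⟩] at h6
    exact h6
  · intro x hx
    have h6 := hrlt ⟨x, hx⟩
    rw [← hs' ⟨x, hx⟩] at h6
    exact h6
  · rw [s1]
    exact hη
  · rw [s2]
    refine hE.trans ?_
    rw [hcd]
    apply mul_le_mul_of_nonneg_left
    · linarith
    · have : (0 : ℝ) ≤ (orb α).card := Nat.cast_nonneg _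
      positivity

/-- the block energy of the conjugates -/
theorem block_energy_orb : ∃ C : ℝ, 1 ≤ C ∧ ∀ {K : Type} [Field K] [NumberField K]
    (σ : K →+* ℂ) (α : K) (L m : ℝ), 0 ≤ L → 1 ≤ (orb α).card →
    ∑ x ∈ orb α, (1 - ‖rf (σ x)‖) ≤ 2 * m →
    Real.circleAverage
      (fun w => Real.posLog (∏ x ∈ orb α, ‖1 - w * starRingEnd ℂ (rf (σ x))‖)) 0 1 ≤ L →
    ∀ p n : ℕ, 1 ≤ n → (∀ x ∈ orb α, (blk α p x).card ≤ n) →
    ∀ ε : ℝ, 0 < ε → ε ≤ 1 / 4 →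
    ∃ r : K → ℝ, (∀ x ∈ orb α, 0 ≤ r x) ∧
      (∀ x ∈ orb α, r x ≤ 1) ∧ (∀ x ∈ orb α, ‖(r x : ℂ) * rf (σ x)‖ < 1) ∧
      ∑ x ∈ orb α, (1 - r x) ≤ C * ε * (1 + L) ∧
      (1 / (n : ℝ)) * ∑ x ∈ orb α, ∑ y ∈ blk α p x,
          ∑ y' ∈ orb α, kr (r x * rf (σ y)) (r y' * rf (σ y')) ≤
        C * (orb α).card * (1 + L) * (Real.log (n / ε) + 2 * m) := by
  obtain ⟨C, hC, h⟩ := block_energy
  refine ⟨C, hC, ?_⟩
  intro K _ _ σ α L m hL hcard hrf hprod p n hn hblk ε hε hε2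
  exact energy_orb_blocks (C := C) (fun {ι} _ _ => h (ι := ι)) σ α hC hL hcard hrf hprod p n hn
    hblk hε hε2

end H82.LB
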