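import Pool.Agent.H82.LB.D5

/-!
# LBA, block E': the energy of the blocks

`z i` the points, `δ i` the scales of the pointwise estimate of `V`, `b i` the block of `i`, of at
most `n` elements. The radii are `1 - ε (δ i + (1/n) ∑_{j ∈ b i} δ j)`.
-/

set_option autoImplicit false

namespace H82.LB

variable {ι : Type} [Fintype ι]

/-- one point against all the points -/
theorem energy_pt_V {z : ι → ℂ} {L : ℝ} (hz : ∀ i, ‖z i‖ ≤ 1) {r : ι → ℝ} (h0 : ∀ i, 0 ≤ r i)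
    (h1 : ∀ i, r i ≤ 1) {w : ℂ} (hw : ‖w‖ < 1) :
    ∑ j, kr w (r j * z j) ≤ (V z L w - L) + ∑ j, (1 - r j) := by
  have h4 : ∀ j, kr w (r j * z j) ≤
      -Real.log ‖1 - w * starRingEnd ℂ (z j)‖ + (1 - r j) := by
    intro j
    have hpos := one_sub_norm hw (hz j)
    have hw2 : ‖w * starRingEnd ℂ (z j)‖ ≤ 1 := mul_conj_le hw.le (hz j)
    have h5 := half_le hw2 (h0 j) (h1 j)
    have hrj := h0 j
    have hrj1 := h1 j
    have h6 := Real.log_le_log (by positivity) h5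
    rw [Real.log_mul (by positivity) hpos.ne'] at h6
    have h7 : -(1 - r j) ≤ Real.log ((1 + r j) / 2) := by
      have h8 := Real.one_sub_inv_le_log_of_pos (show 0 < (1 + r j) / 2 by positivity)
      have h9 : ((1 + r j) / 2)⁻¹ ≤ 1 + (1 - r j) := by
        rw [inv_le_iff_one_le_mul₀ (by positivity)]
        nlinarith
      linarith
    unfold kr
    have e : (1 : ℂ) - w * starRingEnd ℂ (r j * z j) =
        1 - (r j : ℂ) * (w * starRingEnd ℂ (z j)) := by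
      rw [map_mul, Complex.conj_ofReal]
      ring
    rw [e]
    linarith
  calc ∑ j, kr w (r j * z j)
      ≤ ∑ j, (-Real.log ‖1 - w * starRingEnd ℂ (z j)‖ + (1 - r j)) :=
        Finset.sum_le_sum fun j _ => h4 j
    _ = (V z L w - L) + ∑ j, (1 - r j) := by
        rw [Finset.sum_add_distrib, Finset.sum_neg_distrib]
        unfold V
        ring

/-- sums over the blocks -/
theorem sum_blocks {b : ι → Finset ι} (hsym : ∀ i j, j ∈ b i ↔ i ∈ b j) {n : ℕ}
    (hcard : ∀ i, (b i).card ≤ n) {F : ι → ℝ} (hF : ∀ i, 0 ≤ F i) :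
    ∑ i, ∑ j ∈ b i, F j ≤ n * ∑ i, F i := by
  classical
  have h1 : ∑ i, ∑ j ∈ b i, F j = ∑ j, ∑ i ∈ b j, F j := by
    refine Finset.sum_comm' ?_
    intro i j
    simp only [Finset.mem_univ, true_and, and_true]
    exact hsym i j
  rw [h1, Finset.mul_sum]
  refine Finset.sum_le_sum fun j _ => ?_
  rw [Finset.sum_const, nsmul_eq_mul]
  exact mul_le_mul_of_nonneg_right (by exact_mod_cast hcard j) (hF j)

theorem block_of_point [Nonempty ι] {C : ℝ} (hC : 1 ≤ C) (z : ι → ℂ) (L : ℝ)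
    (hz : ∀ i, ‖z i‖ ≤ 1) (hL : 0 ≤ L) (δ : ι → ℝ) (hδ0 : ∀ i, 0 < δ i)
    (hδ1 : ∀ i, δ i ≤ 1 / 2) (hδs : ∑ i, δ i ≤ C * (1 + L))
    (hV : ∀ i, ∀ s : ℝ, 0 < s → s ≤ 1 / 2 → V z L ((1 - s : ℝ) * z i) ≤
      C * Fintype.card ι * (s + (1 - ‖z i‖) + δ i * Real.log (2 + δ i / s)) + C * (1 + L))
    (n : ℕ) (hn : 1 ≤ n) (b : ι → Finset ι) (hsym : ∀ i j, j ∈ b i ↔ i ∈ b j)
    (hcard : ∀ i, (b i).card ≤ n) (ε : ℝ) (hε0 : 0 < ε) (hε : ε ≤ 1 / 4) :
    ∃ r : ι → ℝ, (∀ i, 1 / 2 ≤ r i) ∧ (∀ i, r i ≤ 1) ∧ (∀ i, ‖(r i : ℂ) * z i‖ < 1) ∧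
      ∑ i, (1 - r i) ≤ (4 * C ^ 2) * ε * (1 + L) ∧
      (1 / (n : ℝ)) * ∑ i, ∑ j ∈ b i, ∑ k, kr (r i * z j) (r k * z k) ≤
        (4 * C ^ 2) * Fintype.card ι * (1 + L) * (Real.log (n / ε) + ∑ i, (1 - ‖z i‖)) := by
  classical
  have hn0 : (0 : ℝ) < n := by exact_mod_cast hn
  have hn1 : (1 : ℝ) ≤ n := by exact_mod_cast hn
  have hC0 : 0 < C := by linarith
  set N : ℝ := (Fintype.card ι : ℝ) with hNdef
  have hN : 0 ≤ N := Nat.cast_nonneg _
  set D : ι → ℝ := fun i => δ i + (1 / (n : ℝ)) * ∑ j ∈ b i, δ j with hD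
  have hDsum0 : ∀ i, 0 ≤ ∑ j ∈ b i, δ j := fun i => Finset.sum_nonneg fun j _ => (hδ0 j).le
  have hD0 : ∀ i, 0 < D i := fun i => by
    have h1 := hδ0 i
    have h2 := hDsum0 i
    have h3 : 0 ≤ (1 / (n : ℝ)) * ∑ j ∈ b i, δ j := by positivity
    rw [hD]
    simp only
    linarith
  have hD1 : ∀ i, D i ≤ 1 := by
    intro i
    have h1 : ∑ j ∈ b i, δ j ≤ n * (1 / 2) := by
      calc ∑ j ∈ b i, δ j ≤ ∑ j ∈ b i, (1 / 2 : ℝ) := Finset.sum_le_sum fun j _ => hδ1 j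
        _ = (b i).card * (1 / 2) := by rw [Finset.sum_const, nsmul_eq_mul]
        _ ≤ n * (1 / 2) := by
          apply mul_le_mul_of_nonneg_right _ (by norm_num)
          exact_mod_cast hcard i
    have h2 : (1 / (n : ℝ)) * ∑ j ∈ b i, δ j ≤ 1 / 2 := by
      rw [one_div, inv_mul_le_iff₀ hn0]
      exact h1
    have h3 := hδ1 i
    rw [hD]
    simp only
    linarith
  have hDj : ∀ i, ∀ j ∈ b i, δ j ≤ n * D i := by
    intro i j hj
    have h1 : δ j ≤ ∑ j ∈ b i, δ j := Finset.single_le_sum (fun k _ => (hδ0 k).le) hj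
    have h2 : n * D i = n * δ i + ∑ j ∈ b i, δ j := by
      rw [hD]
      simp only
      field_simp
    have h3 := hδ0 i
    rw [h2]
    have h4 : 0 ≤ n * δ i := by positivity
    linarith
  have hDs : ∑ i, D i ≤ 2 * (C * (1 + L)) := by
    rw [hD]
    simp only
    rw [Finset.sum_add_distrib, ← Finset.mul_sum]
    have h1 := sum_blocks hsym hcard (F := δ) fun i => (hδ0 i).le
    have h2 : (1 / (n : ℝ)) * ∑ i, ∑ j ∈ b i, δ j ≤ ∑ i, δ i := by
      rw [one_div, inv_mul_le_iff₀ hn0]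
      exact h1
    linarith
  set r : ι → ℝ := fun i => 1 - ε * D i with hr
  have hεD0 : ∀ i, 0 < ε * D i := fun i => mul_pos hε0 (hD0 i)
  have hεD1 : ∀ i, ε * D i ≤ 1 / 4 := fun i => by
    have h1 := mul_le_mul hε (hD1 i) (hD0 i).le (by norm_num)
    linarith
  have hr2 : ∀ i, 1 / 2 ≤ r i := fun i => by
    have := hεD1 i
    rw [hr]
    simp only
    linarith
  have hr1 : ∀ i, r i ≤ 1 := fun i => by
    have := hεD0 i
    rw [hr]
    simp only
    linarith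
  have hrz : ∀ i j, ‖(r i : ℂ) * z j‖ < 1 := by
    intro i j
    rw [norm_mul, Complex.norm_real, Real.norm_of_nonneg (by linarith [hr2 i])]
    have h1 : r i < 1 := by
      have := hεD0 i
      rw [hr]
      simp only
      linarith
    have h2 := hr2 i
    have h3 := hz j
    have h4 := norm_nonneg (z j)
    nlinarith
  have hrs : ∑ i, (1 - r i) ≤ 2 * C * ε * (1 + L) := by
    have h1 : ∑ i, (1 - r i) = ε * ∑ i, D i := by
      rw [Finset.mul_sum]
      refine Finset.sum_congr rfl fun i _ => ?_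
      rw [hr]
      simp only
      ring
    rw [h1]
    calc ε * ∑ i, D i ≤ ε * (2 * (C * (1 + L))) := mul_le_mul_of_nonneg_left hDs hε0.le
      _ = 2 * C * ε * (1 + L) := by ring
  set Λ : ℝ := Real.log (n / ε) with hΛ
  have hnε : 4 ≤ n / ε := by
    rw [le_div_iff₀ hε0]
    linarith
  have hΛ1 : 1 ≤ Λ := by
    have h1 : Real.log 4 ≤ Λ := Real.log_le_log (by norm_num) hnε
    have h2 : Real.log 4 = 2 * Real.log 2 := by
      rw [show (4 : ℝ) = 2 ^ 2 by norm_num, Real.log_pow]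
      norm_num
    have h3 := Real.log_two_gt_d9
    linarith
  have hΛ2 : Real.log (2 + n / ε) ≤ 2 * Λ := by
    have h1 : 2 + n / ε ≤ (n / ε) ^ 2 := by nlinarith
    have h2 := Real.log_le_log (by linarith) h1
    rw [Real.log_pow] at h2
    push_cast at h2
    exact h2
  refine ⟨r, hr2, hr1, fun i => hrz i i, ?_, ?_⟩
  · refine hrs.trans ?_
    have h1 : 2 * C ≤ 4 * C ^ 2 := by nlinarith
    have h2 : 0 ≤ ε * (1 + L) := by positivity
    nlinarith [mul_le_mul_of_nonneg_right h1 h2]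
  · -- the pointwise bound
    have hpt : ∀ i, ∀ j ∈ b i, ∑ k, kr (r i * z j) (r k * z k) ≤
        C * N * (ε * D i) + C * N * (1 - ‖z j‖) + C * N * (2 * Λ) * δ j +
          (C * (1 + L) + 2 * C * ε * (1 + L)) := by
      intro i j hj
      have h1 := energy_pt_V (L := L) hz (fun k => (by linarith [hr2 k] : 0 ≤ r k)) hr1 (hrz i j)
      have h2 := hV j (ε * D i) (hεD0 i) (by linarith [hεD1 i])
      have h3 : Real.log (2 + δ j / (ε * D i)) ≤ 2 * Λ := by
        refine le_trans (Real.log_le_log ?_ ?_) hΛ2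
        · have := div_pos (hδ0 j) (hεD0 i)
          linarith
        · have h4 : δ j / (ε * D i) ≤ n / ε := by
            rw [div_le_div_iff₀ (hεD0 i) hε0]
            have h5 := mul_le_mul_of_nonneg_left (hDj i j hj) hε0.le
            nlinarith
          linarith
      have h4 : δ j * Real.log (2 + δ j / (ε * D i)) ≤ δ j * (2 * Λ) :=
        mul_le_mul_of_nonneg_left h3 (hδ0 j).le
      have h5 : C * N * (ε * D i + (1 - ‖z j‖) + δ j * Real.log (2 + δ j / (ε * D i))) ≤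
          C * N * (ε * D i + (1 - ‖z j‖) + δ j * (2 * Λ)) :=
        mul_le_mul_of_nonneg_left (by linarith) (by positivity)
      have e : ((1 - ε * D i : ℝ) : ℂ) = (r i : ℂ) := rfl
      rw [e] at h2
      calc ∑ k, kr (r i * z j) (r k * z k)
          ≤ (V z L (r i * z j) - L) + ∑ k, (1 - r k) := h1
        _ ≤ C * N * (ε * D i + (1 - ‖z j‖) + δ j * (2 * Λ)) + C * (1 + L) +
            2 * C * ε * (1 + L) := by linarith
        _ = _ := by ring
    have hsum : ∑ i, ∑ j ∈ b i, ∑ k, kr (r i * z j) (r k * z k) ≤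
        n * (C * N * (ε * ∑ i, D i)) + n * (C * N * ∑ j, (1 - ‖z j‖)) +
          n * (C * N * (2 * Λ) * ∑ j, δ j) + n * (N * (C * (1 + L) + 2 * C * ε * (1 + L))) := by
      have h1 : ∑ i, ∑ j ∈ b i, ∑ k, kr (r i * z j) (r k * z k) ≤
          ∑ i, ∑ j ∈ b i, (C * N * (ε * D i) + C * N * (1 - ‖z j‖) + C * N * (2 * Λ) * δ j +
          (C * (1 + L) + 2 * C * ε * (1 + L))) :=
        Finset.sum_le_sum fun i _ => Finset.sum_le_sum fun j hj => hpt i j hj
      refine h1.trans ?_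
      simp only [Finset.sum_add_distrib]
      have hCN : 0 ≤ C * N := by positivity
      have g1 : ∑ i, ∑ j ∈ b i, C * N * (ε * D i) ≤ n * (C * N * (ε * ∑ i, D i)) := by
        calc ∑ i, ∑ j ∈ b i, C * N * (ε * D i) = ∑ i, (b i).card * (C * N * (ε * D i)) := by
              refine Finset.sum_congr rfl fun i _ => ?_
              rw [Finset.sum_const, nsmul_eq_mul]
          _ ≤ ∑ i, n * (C * N * (ε * D i)) := by
              refine Finset.sum_le_sum fun i _ => ?_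
              apply mul_le_mul_of_nonneg_right
              · exact_mod_cast hcard i
              · exact mul_nonneg hCN (hεD0 i).le
          _ = n * (C * N * (ε * ∑ i, D i)) := by
              rw [← Finset.mul_sum, ← Finset.mul_sum, ← Finset.mul_sum]
      have g2 : ∑ i, ∑ j ∈ b i, C * N * (1 - ‖z j‖) ≤ n * (C * N * ∑ j, (1 - ‖z j‖)) := by
        have := sum_blocks hsym hcard (F := fun j => C * N * (1 - ‖z j‖))
          (fun j => mul_nonneg hCN (by linarith [hz j]))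
        rwa [← Finset.mul_sum] at this
      have g3 : ∑ i, ∑ j ∈ b i, C * N * (2 * Λ) * δ j ≤ n * (C * N * (2 * Λ) * ∑ j, δ j) := by
        have := sum_blocks hsym hcard (F := fun j => C * N * (2 * Λ) * δ j)
          (fun j => mul_nonneg (mul_nonneg hCN (by linarith)) (hδ0 j).le)
        rwa [← Finset.mul_sum] at this
      have g4 : ∑ i, ∑ _j ∈ b i, C * (1 + L) ≤ n * (N * (C * (1 + L))) := by
        have := sum_blocks hsym hcard (F := fun _ => C * (1 + L))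
          (fun j => by positivity)
        rwa [Finset.sum_const, Finset.card_univ, nsmul_eq_mul] at this
      have g5 : ∑ i, ∑ _j ∈ b i, 2 * C * ε * (1 + L) ≤ n * (N * (2 * C * ε * (1 + L))) := by
        have := sum_blocks hsym hcard (F := fun _ => 2 * C * ε * (1 + L))
          (fun j => by positivity)
        rwa [Finset.sum_const, Finset.card_univ, nsmul_eq_mul] at this
      linarith
    have hS : 0 ≤ ∑ j, (1 - ‖z j‖) := Finset.sum_nonneg fun j _ => by linarith [hz j]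
    have hn' : (1 / (n : ℝ)) * ∑ i, ∑ j ∈ b i, ∑ k, kr (r i * z j) (r k * z k) ≤
        C * N * (ε * ∑ i, D i) + C * N * ∑ j, (1 - ‖z j‖) +
          C * N * (2 * Λ) * ∑ j, δ j + N * (C * (1 + L) + 2 * C * ε * (1 + L)) := by
      rw [one_div, inv_mul_le_iff₀ hn0]
      refine hsum.trans (le_of_eq (by ring))
    refine hn'.trans ?_
    have hCN : 0 ≤ C * N := by positivity
    have hL1 : 0 ≤ 1 + L := by linarith
    have k1 : C * N * (ε * ∑ i, D i) ≤ C * N * (1 / 4 * (2 * (C * (1 + L))) * Λ) := by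
      apply mul_le_mul_of_nonneg_left _ hCN
      have h1 : 0 ≤ 2 * (C * (1 + L)) := by positivity
      calc ε * ∑ i, D i ≤ 1 / 4 * (2 * (C * (1 + L))) := by
            apply mul_le_mul hε hDs (Finset.sum_nonneg fun i _ => (hD0 i).le) (by norm_num)
        _ ≤ 1 / 4 * (2 * (C * (1 + L))) * Λ := by
            apply le_mul_of_one_le_right (by positivity) hΛ1
    have k2 : C * N * ∑ j, (1 - ‖z j‖) ≤ 4 * C ^ 2 * N * (1 + L) * ∑ j, (1 - ‖z j‖) := by
      apply mul_le_mul_of_nonneg_right _ hS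
      have h1 : C ≤ 4 * C ^ 2 * (1 + L) := by
        have h2 : C * 1 ≤ C * (4 * C * (1 + L)) := by
          apply mul_le_mul_of_nonneg_left _ hC0.le
          nlinarith [mul_nonneg hC0.le hL]
        nlinarith
      nlinarith [mul_le_mul_of_nonneg_right h1 hN]
    have k3 : C * N * (2 * Λ) * ∑ j, δ j ≤ C * N * (2 * Λ) * (C * (1 + L)) :=
      mul_le_mul_of_nonneg_left hδs (mul_nonneg hCN (by linarith))
    have k4 : N * (C * (1 + L) + 2 * C * ε * (1 + L)) ≤ N * (3 / 2 * C ^ 2 * (1 + L) * Λ) := by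
      apply mul_le_mul_of_nonneg_left _ hN
      have h1 : C * (1 + L) + 2 * C * ε * (1 + L) ≤ 3 / 2 * (C * (1 + L)) := by
        have h2 : 2 * ε * (C * (1 + L)) ≤ 1 / 2 * (C * (1 + L)) :=
          mul_le_mul_of_nonneg_right (by linarith) (by positivity)
        linarith
      have h3 : C * (1 + L) ≤ C ^ 2 * (1 + L) := by
        apply mul_le_mul_of_nonneg_right _ hL1
        nlinarith
      have h4 : C ^ 2 * (1 + L) ≤ C ^ 2 * (1 + L) * Λ :=
        le_mul_of_one_le_right (by positivity) hΛ1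
      linarith
    have e1 : C * N * (1 / 4 * (2 * (C * (1 + L))) * Λ) + C * N * (2 * Λ) * (C * (1 + L)) +
        N * (3 / 2 * C ^ 2 * (1 + L) * Λ) = 4 * C ^ 2 * N * (1 + L) * Λ := by ring
    have e2 : 4 * C ^ 2 * N * (1 + L) * (Λ + ∑ i, (1 - ‖z i‖)) =
        4 * C ^ 2 * N * (1 + L) * Λ + 4 * C ^ 2 * N * (1 + L) * ∑ j, (1 - ‖z j‖) := by ring
    rw [e2, ← e1]
    linarith

/-- block E', from the pointwise estimate -/
theorem block_energy_of (hVp : ∃ C : ℝ, 1 ≤ C ∧ ∀ {ι : Type} [Fintype ι] [Nonempty ι]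
      (z : ι → ℂ) (L : ℝ), (∀ i, ‖z i‖ ≤ 1) → 0 ≤ L →
      (∀ w : ℂ, ‖w‖ = 1 → ∏ i, ‖1 - w * starRingEnd ℂ (z i)‖ ≤ Real.exp L) →
      ∃ δ : ι → ℝ, (∀ i, 0 < δ i) ∧ (∀ i, δ i ≤ 1 / 2) ∧ ∑ i, δ i ≤ C * (1 + L) ∧
      ∀ i, ∀ s : ℝ, 0 < s → s ≤ 1 / 2 → V z L ((1 - s : ℝ) * z i) ≤
        C * Fintype.card ι * (s + (1 - ‖z i‖) + δ i * Real.log (2 + δ i / s)) + C * (1 + L)) :
    ∃ C : ℝ, 1 ≤ C ∧ ∀ {ι : Type} [Fintype ι] [Nonempty ι] (z : ι → ℂ) (L : ℝ),
      (∀ i, ‖z i‖ ≤ 1) → 0 ≤ L →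
      (∀ w : ℂ, ‖w‖ = 1 → ∏ i, ‖1 - w * starRingEnd ℂ (z i)‖ ≤ Real.exp L) →
      ∀ (n : ℕ), 1 ≤ n → ∀ (b : ι → Finset ι), (∀ i j, j ∈ b i ↔ i ∈ b j) →
      (∀ i, (b i).card ≤ n) → ∀ ε : ℝ, 0 < ε → ε ≤ 1 / 4 →
      ∃ r : ι → ℝ, (∀ i, 1 / 2 ≤ r i) ∧ (∀ i, r i ≤ 1) ∧ (∀ i, ‖(r i : ℂ) * z i‖ < 1) ∧
        ∑ i, (1 - r i) ≤ C * ε * (1 + L) ∧
        (1 / (n : ℝ)) * ∑ i, ∑ j ∈ b i, ∑ k, kr (r i * z j) (r k * z k) ≤
          C * Fintype.card ι * (1 + L) * (Real.log (n / ε) + ∑ i, (1 - ‖z i‖)) := by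
  obtain ⟨C, hC, h⟩ := hVp
  refine ⟨4 * C ^ 2, by nlinarith, ?_⟩
  intro ι _ _ z L hz hL hF n hn b hsym hcard ε hε0 hε
  obtain ⟨δ, hδ0, hδ1, hδs, hV⟩ := h z L hz hL hF
  exact block_of_point hC z L hz hL δ hδ0 hδ1 hδs hV n hn b hsym hcard ε hε0 hε

end H82.LB
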