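import Pool.Agent.H95.SC.S6
import Pool.Agent.H95.KT.Cov
import Pool.Agent.H7.IG.SideA
import Pool.Agent.H7.IG.SideCa
import Pool.Agent.H7.IG.SidePb
import Pool.Agent.H7.IG.SideS0
import Pool.Agent.H7.IG.ChkE
import Pool.Agent.H7.IG.LEx
import Pool.Agent.H7.IG.CovM

/-!
# IG, Part 4c: the big lifting lemma, first step

`M` is a ctm with a supercompact `κ`, `G` a good generic filter for the side condition poset `P`. Every set of `M[G]` is in the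
range of an embedding `LE M[G_γ] M[G] A B δ γ κ e`, `G_γ = Po G γ`.
-/

set_option autoImplicit false
set_option linter.unusedVariables false
set_option linter.unusedSectionVars false
set_option linter.unusedSimpArgs false
set_option linter.unusedTactic false
set_option linter.unreachableTactic false

namespace Pool.Agent.H95.LB

open Pool.Agent.H17.Omega Pool.Agent.H17.Omega.CTM Pool.Agent.H52.GX Pool.Agent.H52.GC Pool.Agent.H7.IG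

/-- the property of the generic filter given by `sc_gen` -/
def Good (M : Set ZFSet.{0}) (κ : Ordinal.{0}) (G : ZFSet.{0}) : Prop :=
  ∀ η : Ordinal.{0}, κ < η → η.toZFSet ∈ M →
      (∀ β < η, Order.succ β < η) → ∀ x ∈ Lv M η, ∃ (γ α : Ordinal.{0}) (e : ZFSet.{0} → ZFSet.{0}),
        Emb M κ η γ α e ∧ Pool.Agent.H95.SC.Low M κ γ α e ∧ TrO M κ γ ∧ (∃ s ∈ G, γ.toZFSet ∈ s) ∧ ∃ y ∈ Lv M α, e y = x

theorem rk_pair1 {a b : ZFSet.{0}} {η : Ordinal.{0}} (h : (ZFSet.pair a b).rank < η) : a.rank < η := by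
  have h1 : ({a, b} : ZFSet.{0}) ∈ ZFSet.pair a b := by rw [pair_eq_upair]; simp
  have h2 : a ∈ ({a, b} : ZFSet.{0}) := by simp
  exact (ZFSet.rank_lt_of_mem h2).trans ((ZFSet.rank_lt_of_mem h1).trans h)

theorem rk_pair2 {a b : ZFSet.{0}} {η : Ordinal.{0}} (h : (ZFSet.pair a b).rank < η) : b.rank < η := by
  have h1 : ({a, b} : ZFSet.{0}) ∈ ZFSet.pair a b := by rw [pair_eq_upair]; simp
  have h2 : b ∈ ({a, b} : ZFSet.{0}) := by simp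
  exact (ZFSet.rank_lt_of_mem h2).trans ((ZFSet.rank_lt_of_mem h1).trans h)

theorem sep_Po {N : Set ZFSet.{0}} (hN : CTM N) {G B : ZFSet.{0}} {o : Ordinal.{0}} (hG : G ∈ N)
    (ho : o.toZFSet ∈ N) : Po G o ∈ N := by
  rw [Po]
  refine hN.sep_mem ?_ hG
  obtain ⟨V, hV, hV'⟩ := exists_Lv hN ho
  have h1 : (fun v : Fin 1 → N => ∀ Q ∈ (v 0).1, Q.rank < o) =
      (fun v : Fin 1 → N => (v 0).1 ⊆ (⟨V, hV⟩ : N).1) := by
    funext v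
    refine propext ⟨fun h z hz => (hV' z).2 ⟨hN.mem_of_mem (v 0).2 hz, h z hz⟩, fun h z hz => ((hV' z).1 (h hz)).2⟩
  show hN.Dfn (fun v : Fin 1 → N => ∀ Q ∈ (v 0).1, Q.rank < o)
  rw [h1]
  (repeat' first
      | exact DT.var _ | exact DT.last | exact DT.const _ | assumption
      | refine Dfn.pairMem ?_ ?_ ?_ | refine Dfn.isPair ?_ ?_ ?_ | refine Dfn.mem ?_ ?_
      | refine Dfn.eqv ?_ ?_ | refine Dfn.eq ?_ ?_ | refine Dfn.subset ?_ ?_)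

theorem Pg_mem {M : Set ZFSet.{0}} (hM : CTM M) {P : ZFSet.{0}} (hP : P ∈ M) {o : Ordinal.{0}} (ho : o.toZFSet ∈ M) :
    Pg P o ∈ M := by
  rw [Pg]
  refine hM.sep_mem ?_ hP
  show hM.Dfn (fun v : Fin 1 → M => (⟨o.toZFSet, ho⟩ : M).1 ∈ (v 0).1)
  (repeat' first
      | exact DT.var _ | exact DT.last | exact DT.const _ | assumption
      | refine Dfn.pairMem ?_ ?_ ?_ | refine Dfn.isPair ?_ ?_ ?_ | refine Dfn.mem ?_ ?_)

variable {M : Set ZFSet.{0}} {κ : Ordinal.{0}}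

theorem covG (hM : CTM M) (h : Sc M κ) {P G : ZFSet.{0}} (hP : IsPK M κ P) (hG : Gen M P G) : Cov M (Xt M G) :=
  Pool.Agent.H95.KT.cov hM hM (fun x hx => hx) (fun o ho => ho) hP.1
    ⟨P, hP.1, fun x hx => hx⟩ (side_spr0 hM h.mem (Inac.ucof hM (Pool.Agent.H95.SC.sc_inac hM h)) hP) hG

/-- the small generic filter -/
theorem genPo (hM : CTM M) {P G : ZFSet.{0}} (hP : IsPK M κ P) (hG : Gen M P G) {o : Ordinal.{0}} (ho : TrO M κ o)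
    (hoG : ∃ s ∈ G, o.toZFSet ∈ s) : Gen M (Po P o) (Po G o) := by
  obtain ⟨B, hB, hB'⟩ := exists_Lv hM ho.1
  have h1 := (side_prj hM hP ho hB').gen₀ hM (Pg_mem hM hP.1 ho.1) (sep_Po (B := B) hM hP.1 ho.1) hB
    (side_cone hM hP hG ho hoG).1
  rwa [side_Gb hM hP hG ho hoG hB'] at h1

/-- Every set of `M[G]` is in the range of an embedding. -/
theorem le1 (hM : CTM M) (h : Sc M κ) {P G : ZFSet.{0}} (hP : IsPK M κ P) (hG : Gen M P G) (hGs : Good M κ G)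
    {δ : Ordinal.{0}} (hδ : IsOm1 M δ) {y : ZFSet.{0}} (hy : y ∈ Xt M G) :
    ∃ (γ : Ordinal.{0}) (A B : Set ZFSet.{0}) (e : ZFSet.{0} → ZFSet.{0}), TrO M κ γ ∧ (∃ s ∈ G, γ.toZFSet ∈ s) ∧
      LE (Xt M (Po G γ)) (Xt M G) A B δ γ κ e ∧ Sml (Xt M G) A δ ∧ ∃ x ∈ A, e x = y := by
  obtain ⟨τ, hτ, rfl⟩ := hy
  have hin := Pool.Agent.H95.SC.sc_inac hM h
  have hPM := hP.1
  -- the names
  obtain ⟨ζ, hζM, hζl, hζω, hPζ, hzζ, T, hTM, hT, K, hKM, hK⟩ :=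
    exists_Chk hM hPM (⟨ZFSet.pair κ.toZFSet τ, hM.pair_mem h.mem hτ⟩ : M)
  have hzζ : (ZFSet.pair κ.toZFSet τ).rank < ζ := hzζ
  have hκT : κ.toZFSet ∈ T := (hT _).2 ⟨h.mem, rk_pair1 hzζ⟩
  have hτT : τ ∈ T := (hT _).2 ⟨hτ, rk_pair2 hzζ⟩
  have hPT : P ∈ T := (hT _).2 ⟨hPM, hPζ⟩
  have hTl : Lev M (El T) := by
    have h1 : El T = Lv M ζ := by
      ext x
      exact hT x
    rw [h1]
    exact Lev_Lv hM hζM hζl hζω
  obtain ⟨E, hEM, hE⟩ := exists_E hM hPM hTM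
  -- the tuple
  have hxM : ZFSet.pair κ.toZFSet (ZFSet.pair P (ZFSet.pair T (ZFSet.pair K (ZFSet.pair E τ)))) ∈ M :=
    hM.pair_mem h.mem (hM.pair_mem hPM (hM.pair_mem hTM (hM.pair_mem hKM (hM.pair_mem hEM hτ))))
  obtain ⟨η, hηM, hxη, hη⟩ := Pool.Agent.H95.SC.exists_lim hM hxM
  have hκη : κ < η := by
    have h1 := rk_pair1 hxη
    rwa [Ordinal.rank_toZFSet] at h1
  obtain ⟨γ, α, e, hEm, hlow, htr, hγG, y0, hy0, hey0⟩ := hGs η hκη hηM hη _ ⟨hxM, hxη⟩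
  have hlev := Pool.Agent.H95.SC.emb_lev hM hηM hη hκη hEm
  have hlev' := Pool.Agent.H95.SC.emb_lev' hM hηM hη hκη hEm
  have hA := hlev.tra
  have hB := hlev'.tra
  have hle : LE M M (Lv M α) (Lv M η) δ γ κ e :=
    ⟨hM, hM, fun x hx => hx, hδ, hδ, Pool.Agent.H95.SC.emb_om1 hM h hηM hη hκη hEm hδ, hEm.lt.trans hEm.lt', hlev, hlev',
      hEm.el, hEm.gr, Pool.Agent.H95.SC.emb_gmem hM hηM hκη hEm,
      fun ξ hξ => Pool.Agent.H95.SC.emb_ord hM hηM hκη hEm hξ, hEm.crit⟩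
  obtain ⟨c1, _, y1, hy1, _, _, ey1⟩ := hEm.el.comp hA hB hy0 hey0
  obtain ⟨P1, hP1, y2, hy2, _, eP1, ey2⟩ := hEm.el.comp hA hB hy1 ey1
  obtain ⟨T1, hT1, y3, hy3, _, eT1, ey3⟩ := hEm.el.comp hA hB hy2 ey2
  obtain ⟨K1, hK1, y4, hy4, _, eK1, ey4⟩ := hEm.el.comp hA hB hy3 ey3
  obtain ⟨E1, hE1, τ1, hτ1, _, eE1, eτ1⟩ := hEm.el.comp hA hB hy4 ey4
  have hP1o : P1 = Po P γ := Pool.Agent.H95.SC.emb_Po hM h hηM hη hκη hEm hlow hP hP1 eP1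
  have hgen : Gen M P1 (Po G γ) := by
    rw [hP1o]
    exact genPo hM hP hG htr hγG
  have hNM : CTM (Xt M G) := hG.ctm hM hPM
  have hMN : M ⊆ Xt M G := hG.sub_xt hM hPM
  have hGN : G ∈ Xt M G := hG.mem_xt hM hPM
  have hGo : Po G γ ∈ Xt M G := sep_Po (B := G) hNM hGN (hMN htr.1)
  have hW0 : CTM (Xt M (Po G γ)) := hgen.ctm hM (hP1o ▸ sep_Po (B := G) hM hPM htr.1)
  have hMW : M ⊆ Xt M (Po G γ) := hgen.sub_xt hM (hP1o ▸ sep_Po (B := G) hM hPM htr.1)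
  have hWN : Xt M (Po G γ) ⊆ Xt M G := xt_min hNM hMN hGo
  have hcov := covG hM h hP hG
  have hHH : ∀ p ∈ P1, p ∈ Po G γ ↔ e p ∈ G := by
    intro p hp
    rw [hP1o, mem_Po] at hp
    have hfin : FinZ p := ((hP.2 p).1 hp.1).fin
    have hpM : p ∈ M := hM.mem_of_mem hPM hp.1
    have hpγ : p ∈ Lv M γ :=
      finZ_mem_Lv hM htr.2.2.2.1 htr.2.2.1 hfin (fun x hx => ⟨hM.mem_of_mem hpM hx, hp.2 x hx⟩)
    rw [hEm.fix p hpγ, mem_Po]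
    exact ⟨fun h1 => h1.1, fun h1 => ⟨h1, hp.2⟩⟩
  obtain ⟨e', hle', hval, -⟩ := hle.lift hP1 hT1 hK1 hE1 eP1 eT1 eK1 eE1 hTl hPT hκT hK hE hgen hG hGo hHH
    (Cov.om1 hMW (Cov.low hMW hWN hcov) hδ) (Cov.om1 hMN hcov hδ)
  refine ⟨γ, _, _, e', htr, hγG, hle', ?_, vl (Po G γ) τ1, ?_, ?_⟩
  · -- small
    have hαM : α.toZFSet ∈ M := hM.toZFSet_mem_of_le hEm.lt'.le h.mem
    obtain ⟨K2, hK2, hK2'⟩ := exists_Lv hM hαM
    have hc : Cvr (Xt M G) δ.toZFSet T1 :=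
      (side_small hM hin hP hG hδ hEm.lt' hK2').mono fun x hx => (hK2' x).2 (hA _ hT1 _ hx)
    exact cvr_vl hNM (hMN hδ.mem) (hMN (hlev.sub hT1)) hGo hc
  · exact ⟨τ1, (hEm.el.mem hA hB hτ1 hT1).2 (by rw [eτ1, eT1]; exact hτT), rfl⟩
  · rw [hval τ1 ((hEm.el.mem hA hB hτ1 hT1).2 (by rw [eτ1, eT1]; exact hτT)), eτ1]

end Pool.Agent.H95.LB
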