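import Pool.Agent.H91.LK.B3

/-!
# LB: algebraic numbers with many primes `p` such that two conjugates have equal `p`-th powers
-/

set_option autoImplicit false

namespace H95.LB

open H25.Arith

section

variable {K : Type} [Field K] [NumberField K]

/-- automorphisms act on a root of unity by a power -/
theorem tor_pow (σ : K ≃ₐ[ℚ] K) {ζ : K} {n : ℕ} (hn : 0 < n) (h : ζ ^ n = 1) :
    ∃ m : ℕ, σ ζ = ζ ^ m := by
  have : NeZero n := ⟨hn.ne'⟩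
  obtain ⟨a, ha⟩ := map_rootsOfUnity_eq_pow_self σ.toAlgHom (rootsOfUnity.mkOfPowEq ζ h)
  exact ⟨a, by simpa using ha⟩

/-- automorphisms commute on roots of unity -/
theorem tor_comm (σ τ : K ≃ₐ[ℚ] K) {ζ : K} {n : ℕ} (hn : 0 < n) (h : ζ ^ n = 1) :
    σ (τ ζ) = τ (σ ζ) := by
  obtain ⟨a, ha⟩ := tor_pow σ hn h
  obtain ⟨b, hb⟩ := tor_pow τ hn h
  rw [hb, map_pow, ha, map_pow, hb, ← pow_mul, ← pow_mul, mul_comm]

theorem tor_iter (ρ : K ≃ₐ[ℚ] K) {α ω : K} (h1 : ρ α = ω * α) (h2 : ρ ω = ω) (j : ℕ) :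
    (ρ ^ j) α = ω ^ j * α ∧ (ρ ^ j) ω = ω := by
  induction j with
  | zero => simp
  | succ j ih =>
    rw [pow_succ', AlgEquiv.mul_apply, AlgEquiv.mul_apply, ih.1, ih.2, map_mul, map_pow, h2, h1]
    refine ⟨by ring, rfl⟩

theorem tor_modEq {p : ℕ} (hp : p.Prime) {ω : K} (hω : ω ^ p = 1) (hω1 : ω ≠ 1) (i j : ℕ) :
    ω ^ i = ω ^ j ↔ i ≡ j [MOD p] := by
  have : Fact p.Prime := ⟨hp⟩
  have h0 : ω ≠ 0 := by
    rintro rfl
    rw [zero_pow hp.ne_zero] at hω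
    exact zero_ne_one hω
  have hord : orderOf (Units.mk0 ω h0) = p := by
    refine orderOf_eq_prime ?_ ?_
    · ext
      simpa using hω
    · intro h
      apply hω1
      have h1 := congrArg Units.val h
      simpa using h1
  rw [← hord, ← pow_eq_pow_iff_modEq, Units.ext_iff]
  simp

/-- no translation at `p` -/
theorem tor_N {p : ℕ} (hp : p.Prime) {α : K} (hα : α ≠ 0)
    (hno : ∀ s : Finset K, (∀ x ∈ s, x ∈ orb α ∧ x ^ p = α ^ p) → s.card < p)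
    (ρ : K ≃ₐ[ℚ] K) {ω : K} (hω : ω ^ p = 1) (h1 : ρ α = ω * α) (h2 : ρ ω = ω) : ω = 1 := by
  classical
  by_contra hne
  have h3 := hno ((Finset.range p).image fun j => ω ^ j * α) (by
    intro x hx
    obtain ⟨j, -, rfl⟩ := Finset.mem_image.1 hx
    refine ⟨Disc.mem_orb.2 ⟨ρ ^ j, (tor_iter ρ h1 h2 j).1⟩, ?_⟩
    rw [mul_pow, ← pow_mul, mul_comm j p, pow_mul, hω, one_pow, one_mul])
  rw [Finset.card_image_of_injOn, Finset.card_range] at h3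
  · exact lt_irrefl _ h3
  · intro i hi j hj hij
    have h4 : ω ^ i = ω ^ j := mul_right_cancel₀ hα hij
    have h5 := (tor_modEq hp hω hne i j).1 h4
    unfold Nat.ModEq at h5
    rw [Nat.mod_eq_of_lt (Finset.mem_range.1 hi), Nat.mod_eq_of_lt (Finset.mem_range.1 hj)]
      at h5
    exact h5

/-- the fixed point -/
theorem tor_fix {p m : ℕ} (hp : p.Prime) (hm0 : 0 < m) {α : K}
    (hα : α ≠ 0) (τ : K ≃ₐ[ℚ] K) {ω : K} (hω : ω ^ p = 1) (hω1 : ω ≠ 1) (hτ : τ α = ω * α)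
    (N : ∀ (ρ : K ≃ₐ[ℚ] K) (η : K), η ^ p = 1 → ρ α = η * α → ρ η = η → η = 1) :
    ∃ ε : K, ε ^ p = α ^ (m * p) ∧
      ∀ σ : K ≃ₐ[ℚ] K, σ (α ^ (m * p)) = α ^ (m * p) → σ ε = ε := by
  have : Fact p.Prime := ⟨hp⟩
  have hord : orderOf ω = p := orderOf_eq_prime hω hω1
  have hmp : 0 < m * p := Nat.mul_pos hm0 hp.pos
  obtain ⟨k, hk⟩ := tor_pow τ hp.pos hω
  have hk1 : (k : ZMod p) ≠ 1 := by
    intro h
    have h1 : (k : ZMod p) = ((1 : ℕ) : ZMod p) := by rw [h, Nat.cast_one]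
    have h2 := (ZMod.natCast_eq_natCast_iff _ _ _).1 h1
    have h3 : ω ^ k = ω ^ 1 := (tor_modEq hp hω hω1 k 1).2 h2
    rw [pow_one] at h3
    exact hω1 (N τ ω hω hτ (by rw [hk, h3]))
  have hk0 : (k : ZMod p) - 1 ≠ 0 := sub_ne_zero.2 hk1
  -- the fixed point of `x ↦ k x + m`
  obtain ⟨x, hx⟩ : ∃ x : ℕ, ω ^ (k * x + m) = ω ^ x := by
    refine ⟨(-(m : ZMod p) / ((k : ZMod p) - 1)).val, (tor_modEq hp hω hω1 _ _).2 ?_⟩
    refine (ZMod.natCast_eq_natCast_iff _ _ _).1 ?_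
    push_cast
    rw [ZMod.natCast_val, ZMod.cast_id]
    field_simp
    ring
  set ε : K := ω ^ x * α ^ m with hε
  have hω0 : ω ≠ 0 := by
    rintro rfl
    rw [zero_pow hp.ne_zero] at hω
    exact zero_ne_one hω
  have hε0 : ε ≠ 0 := mul_ne_zero (pow_ne_zero _ hω0) (pow_ne_zero _ hα)
  have hεp : ε ^ p = α ^ (m * p) := by
    rw [hε, mul_pow, ← pow_mul, mul_comm x p, pow_mul, hω, one_pow, one_mul, ← pow_mul]
  have hτε : τ ε = ε := by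
    rw [hε, map_mul, map_pow, map_pow, hk, hτ, ← pow_mul, mul_pow, ← mul_assoc, ← pow_add, hx]
  have hτΔ : τ (α ^ (m * p)) = α ^ (m * p) := by
    rw [map_pow, hτ, mul_pow, mul_comm m p, pow_mul ω, hω, one_pow, one_mul]
  refine ⟨ε, hεp, fun σ hσ => ?_⟩
  -- the commutator
  set ρ : K ≃ₐ[ℚ] K := σ * τ * σ⁻¹ * τ⁻¹ with hρ
  have hinv : ∀ (g : K ≃ₐ[ℚ] K) (y : K), g y = y → g⁻¹ y = y := by
    intro g y h
    have h1 : g⁻¹ (g y) = y := by
      rw [← AlgEquiv.mul_apply, inv_mul_cancel, AlgEquiv.one_apply]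
    rwa [h] at h1
  have happ : ∀ y, ρ y = σ (τ (σ⁻¹ (τ⁻¹ y))) := fun y => rfl
  have hρroot : ∀ (n : ℕ) (χ : K), 0 < n → χ ^ n = 1 → ρ χ = χ := by
    intro n χ hn hχ
    have h1 : (σ⁻¹ (τ⁻¹ χ)) ^ n = 1 := by
      rw [← map_pow, ← map_pow, hχ, map_one, map_one]
    rw [happ, tor_comm σ τ hn h1]
    have h2 : σ (σ⁻¹ (τ⁻¹ χ)) = τ⁻¹ χ := by
      rw [← AlgEquiv.mul_apply, mul_inv_cancel, AlgEquiv.one_apply]
    rw [h2, ← AlgEquiv.mul_apply, mul_inv_cancel, AlgEquiv.one_apply]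
  have hρΔ : ρ (α ^ (m * p)) = α ^ (m * p) := by
    rw [happ, hinv τ _ hτΔ, hinv σ _ hσ, hτΔ, hσ]
  set χ : K := ρ α / α with hχ
  have hχα : ρ α = χ * α := by rw [hχ, div_mul_cancel₀ _ hα]
  have hχ1 : χ ^ (m * p) = 1 := by
    rw [hχ, div_pow, ← map_pow, hρΔ, div_self (pow_ne_zero _ hα)]
  have hρχ : ρ χ = χ := hρroot _ χ hmp hχ1
  have hχm : χ ^ m = 1 := by
    obtain ⟨h1, h2⟩ := tor_iter ρ hχα hρχ m
    refine N (ρ ^ m) (χ ^ m) (by rw [← pow_mul, hχ1]) h1 ?_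
    rw [map_pow, h2]
  have hρε : ρ ε = ε := by
    rw [hε, map_mul, map_pow, map_pow, hρroot p ω hp.pos hω, hχα, mul_pow, hχm, one_mul]
  have h3 : τ (σ⁻¹ ε) = σ⁻¹ ε := by
    rw [happ, hinv τ _ hτε] at hρε
    have h4 : σ⁻¹ (σ (τ (σ⁻¹ ε))) = τ (σ⁻¹ ε) := by
      rw [← AlgEquiv.mul_apply, inv_mul_cancel, AlgEquiv.one_apply]
    rw [hρε] at h4
    exact h4.symm
  set η : K := σ⁻¹ ε / ε with hη
  have hηε : σ⁻¹ ε = η * ε := by rw [hη, div_mul_cancel₀ _ hε0]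
  have hηp : η ^ p = 1 := by
    rw [hη, div_pow, ← map_pow, hεp, hinv σ _ hσ, div_self (pow_ne_zero _ hα)]
  have hτη : τ η = η := by
    rw [hηε, map_mul, hτε] at h3
    exact mul_right_cancel₀ hε0 h3
  have hη1 : η = 1 := by
    have hprim : IsPrimitiveRoot ω p := by
      rw [← hord]
      exact IsPrimitiveRoot.orderOf ω
    obtain ⟨y, -, hy⟩ := hprim.eq_pow_of_pow_eq_one hηp
    rw [← hy, map_pow, hk, ← pow_mul] at hτη
    have h5 := (tor_modEq hp hω hω1 _ _).1 hτη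
    have h6 := (ZMod.natCast_eq_natCast_iff _ _ _).2 h5
    push_cast at h6
    have h7 : ((k : ZMod p) - 1) * (y : ZMod p) = 0 := by
      rw [sub_mul, h6, one_mul, sub_self]
    have h8 : (y : ZMod p) = 0 := (mul_eq_zero.1 h7).resolve_left hk0
    have h9 : p ∣ y := (ZMod.natCast_eq_zero_iff _ _).1 h8
    obtain ⟨z, rfl⟩ := h9
    rw [← hy, pow_mul, hω, one_pow]
  rw [hη1, one_mul] at hηε
  have h10 : σ (σ⁻¹ ε) = ε := by
    rw [← AlgEquiv.mul_apply, mul_inv_cancel, AlgEquiv.one_apply]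
  rw [hηε] at h10
  exact h10

end

end H95.LB
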